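import Pool.Agent.Lib.Haxell.Refined

-- merged part: Pool.Agent.Work.MP_ae9baf_co.Basic
section
namespace Pool.Agent.Work.MP_ae9baf_co

open Classical Pool.Agent.Lib.Haxell

variable {V C : Type*}

theorem colorable_of_mem {G : SimpleGraph V} (f : V → C) (P : Finset C) (hP : ∀ x, f x ∈ P)
    (hf : ∀ x y, G.Adj x y → f x ≠ f y) : G.Colorable P.card := by
  have c : G.Coloring P := SimpleGraph.Coloring.mk (fun x => ⟨f x, hP x⟩)
    (fun {x y} h e => hf x y h (congrArg Subtype.val e))
  simpa using c.colorable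

theorem exists_loc {G : SimpleGraph V} {s : ℕ}
    (hloc : ∀ v, (G.induce (insert v (G.neighborSet v))).Colorable s) :
    ∃ loc : V → V → Fin s, (∀ z x, G.Adj x z → loc z x ≠ loc z z) ∧
      ∀ z x y, G.Adj x z → G.Adj y z → G.Adj x y → loc z x ≠ loc z y := by
  have c := fun v => (hloc v).some
  refine ⟨fun z x => if h : x ∈ insert z (G.neighborSet z) then c z ⟨x, h⟩
    else c z ⟨z, Or.inl rfl⟩, fun z x h => ?_, fun z x y hx hy hxy => ?_⟩
  · have h1 : x ∈ insert z (G.neighborSet z) := Or.inr h.symm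
    have h2 : z ∈ insert z (G.neighborSet z) := Or.inl rfl
    simp only [dif_pos h1, dif_pos h2]
    exact (c z).valid h
  · have h1 : x ∈ insert z (G.neighborSet z) := Or.inr hx.symm
    have h2 : y ∈ insert z (G.neighborSet z) := Or.inr hy.symm
    simp only [dif_pos h1, dif_pos h2]
    exact (c z).valid hxy

/-- If the classes in `B` are dominated by `Z`, recolour them with local colourings. -/
theorem colorable_of_dominated {G : SimpleGraph V} {s : ℕ}
    (hloc : ∀ v, (G.induce (insert v (G.neighborSet v))).Colorable s)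
    (σ : V → C) (hσ : ∀ x y, G.Adj x y → σ x ≠ σ y) (K : Finset C) (hK : ∀ x, σ x ∈ K)
    (B : Finset C) (Z : Finset V) (hZ : ∀ x, σ x ∈ B → ∃ z ∈ Z, G.Adj x z) :
    G.Colorable ((K \ B).card + Z.card * (s - 1)) := by
  obtain ⟨loc, h1, h2⟩ := exists_loc hloc
  choose! d hd1 hd2 using hZ
  let P : Finset (C ⊕ (Σ _ : V, Fin s)) :=
    (K \ B).disjSum (Z.sigma fun z => Finset.univ.erase (loc z z))
  have hcard : P.card = (K \ B).card + Z.card * (s - 1) := by
    simp only [P, Finset.card_disjSum, Finset.card_sigma]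
    congr 1
    rw [Finset.sum_congr rfl (g := fun _ => s - 1) (fun z _ => by simp)]
    simp
  rw [← hcard]
  refine colorable_of_mem
    (fun x => if σ x ∈ B then Sum.inr ⟨d x, loc (d x) x⟩ else Sum.inl (σ x)) P
    (fun x => ?_) (fun x y hxy => ?_)
  · by_cases hx : σ x ∈ B
    · simp only [hx, if_true, P, Finset.inr_mem_disjSum, Finset.mem_sigma, Finset.mem_erase,
        Finset.mem_univ, and_true]
      exact ⟨hd1 x hx, h1 _ _ (hd2 x hx)⟩
    · simp [hx, P, hK x]
  · by_cases hx : σ x ∈ B <;> by_cases hy : σ y ∈ B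
    · simp only [hx, hy, if_true, ne_eq, Sum.inr.injEq, Sigma.mk.injEq, heq_eq_eq, not_and]
      intro e
      have := h2 (d x) x y (hd2 x hx) (e ▸ hd2 y hy) hxy
      rwa [← e]
    · simp [hx, hy]
    · simp [hx, hy]
    · simpa [hx, hy] using hσ x y hxy

/-- `q` disjoint copies of `G`. -/
def copies (G : SimpleGraph V) (q : ℕ) : SimpleGraph (V × Fin q) where
  Adj p r := G.Adj p.1 r.1 ∧ p.2 = r.2
  symm := ⟨fun _ _ h => ⟨h.1.symm, h.2.symm⟩⟩
  loopless := ⟨fun _ h => G.irrefl h.1⟩

theorem exists_rainbow [Fintype V] {G : SimpleGraph V} {s : ℕ} (hs : 2 ≤ s)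
    (hloc : ∀ v, (G.induce (insert v (G.neighborSet v))).Colorable s)
    (σ : V → C) (hσ : ∀ x y, G.Adj x y → σ x ≠ σ y) :
    ∃ H : Finset V, (G.induce (H : Set V)).Colorable (2 * (s - 1)) ∧
      G.Colorable (H.image σ).card := by
  obtain ⟨J, hJK, ⟨T, -, hT2, hT3⟩, B, hBK, hJB, Z, hZ1, hZ2⟩ :=
    haxell_deficiency (copies G (2 * (s - 1))) (fun p => σ p.1) (Finset.univ.image σ)
  let H : Finset V := Finset.univ.filter fun x => ∃ c, (x, c) ∈ T
  refine ⟨H, ?_, ?_⟩
  · have hc : ∀ x : (H : Set V), ∃ c, (x.1, c) ∈ T := fun x => by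
      have := x.2
      simpa [H] using this
    choose c hc using hc
    exact ⟨SimpleGraph.Coloring.mk c fun {x y} h e => hT2 _ (hc x) _ (hc y) ⟨h, e⟩⟩
  · have hq : 0 < 2 * (s - 1) := by omega
    obtain ⟨c, hc⟩ : ∃ c : Fin (2 * (s - 1)),
        (Z.filter fun p => p.2 = c).card * (2 * (s - 1)) ≤ Z.card := by
      by_contra hcon
      push Not at hcon
      have h1 := Finset.card_eq_sum_card_fiberwise (s := Z) (t := Finset.univ)
        (f := fun p : V × Fin (2 * (s - 1)) => p.2) (fun _ _ => Finset.mem_coe.2 (Finset.mem_univ _))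
      have h2 : ∑ _c : Fin (2 * (s - 1)), Z.card <
          ∑ c : Fin (2 * (s - 1)), (Z.filter fun p => p.2 = c).card * (2 * (s - 1)) :=
        Finset.sum_lt_sum_of_nonempty ⟨⟨0, hq⟩, Finset.mem_univ _⟩ fun c _ => hcon c
      rw [← Finset.sum_mul, ← h1] at h2
      simp [mul_comm] at h2
    have hcol := colorable_of_dominated hloc σ hσ (Finset.univ.image σ)
      (fun x => Finset.mem_image_of_mem σ (Finset.mem_univ x)) B
      ((Z.filter fun p => p.2 = c).image Prod.fst) (fun x hx => by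
        obtain ⟨z, hz, hxz⟩ := hZ2 (x, c) hx
        exact ⟨z.1, Finset.mem_image_of_mem _ (Finset.mem_filter.2 ⟨hz, hxz.2.symm⟩), hxz.1⟩)
    refine hcol.mono ?_
    have h1 : ((Z.filter fun p => p.2 = c).image Prod.fst).card ≤
      (Z.filter fun p => p.2 = c).card := Finset.card_image_le
    have h2 : ((Z.filter fun p => p.2 = c).image Prod.fst).card * (s - 1) ≤ (B ∩ J).card := by
      have := Nat.mul_le_mul_right (s - 1) h1
      nlinarith
    have h3 : (Finset.univ.image σ \ B).card + (B ∩ J).card ≤ J.card := by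
      rw [← Finset.card_union_of_disjoint]
      · refine Finset.card_le_card fun i hi => ?_
        rcases Finset.mem_union.1 hi with hi | hi
        · by_contra hc
          obtain ⟨h1, h2⟩ := Finset.mem_sdiff.1 hi
          exact h2 (hJB (Finset.mem_sdiff.2 ⟨h1, hc⟩))
        · exact (Finset.mem_inter.1 hi).2
      · exact Finset.disjoint_left.2 fun i h1 h2 =>
          (Finset.mem_sdiff.1 h1).2 (Finset.mem_inter.1 h2).1
    have h4 : J.card ≤ (H.image σ).card := by
      refine Finset.card_le_card fun i hi => ?_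
      obtain ⟨p, hp, hpi⟩ := hT3 i hi
      exact Finset.mem_image.2 ⟨p.1, by simpa [H] using ⟨p.2, hp⟩, hpi⟩
    omega

end Pool.Agent.Work.MP_ae9baf_co
end

-- merged part: Pool.Agent.Work.MP_ae9baf_co.Main
section
namespace Pool.Agent.Work.MP_ae9baf_co

open Classical Pool.Agent.Lib.Haxell

variable {V C : Type*}

theorem exists_rainbow' [Fintype V] {G : SimpleGraph V} {s : ℕ} (hs : 3 ≤ s)
    (hloc : ∀ v, (G.induce (insert v (G.neighborSet v))).Colorable s)
    (σ : V → C) (hσ : ∀ x y, G.Adj x y → σ x ≠ σ y) :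
    ∃ H : Finset V, (G.induce (H : Set V)).Colorable (2 * (s - 1)) ∧
      (H.image σ = Finset.univ.image σ ∨ ∃ n, n + 1 ≤ (H.image σ).card ∧ G.Colorable n) := by
  obtain ⟨J, hJK, ⟨T, -, hT2, hT3⟩, hcase⟩ :=
    haxell_deficiency' (copies G (2 * (s - 1))) (fun p => σ p.1) (Finset.univ.image σ)
      (fun i hi => by
        obtain ⟨x, -, hx⟩ := Finset.mem_image.1 hi
        exact ⟨(x, ⟨0, by omega⟩), hx⟩)
  let H : Finset V := Finset.univ.filter fun x => ∃ c, (x, c) ∈ T
  have h4 : J ⊆ H.image σ := by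
    intro i hi
    obtain ⟨p, hp, hpi⟩ := hT3 i hi
    exact Finset.mem_image.2 ⟨p.1, by simpa [H] using ⟨p.2, hp⟩, hpi⟩
  refine ⟨H, ?_, ?_⟩
  · have hc : ∀ x : (H : Set V), ∃ c, (x.1, c) ∈ T := fun x => by
      have := x.2
      simpa [H] using this
    choose c hc using hc
    exact ⟨SimpleGraph.Coloring.mk c fun {x y} h e => hT2 _ (hc x) _ (hc y) ⟨h, e⟩⟩
  rcases hcase with hJ | ⟨B, hBK, hJB, Z, w, y, hZ1, hZ2⟩
  · left
    refine Finset.Subset.antisymm (Finset.image_subset_image (Finset.subset_univ _)) ?_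
    rw [← hJ]; exact h4
  right
  have h4' := Finset.card_le_card h4
  have h3 : (Finset.univ.image σ \ B).card + (B ∩ J).card ≤ J.card := by
    rw [← Finset.card_union_of_disjoint]
    · refine Finset.card_le_card fun i hi => ?_
      rcases Finset.mem_union.1 hi with hi | hi
      · by_contra hc
        obtain ⟨h1, h2⟩ := Finset.mem_sdiff.1 hi
        exact h2 (hJB (Finset.mem_sdiff.2 ⟨h1, hc⟩))
      · exact (Finset.mem_inter.1 hi).2
    · exact Finset.disjoint_left.2 fun i h1 h2 =>
        (Finset.mem_sdiff.1 h1).2 (Finset.mem_inter.1 h2).1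
  set m := (B ∩ J).card with hm
  have hex : ∃ c : Fin (2 * (s - 1)),
      (Z.filter fun p => p.2 = c).card * (s - 1) + (if c = w.2 then 1 else 0) + 1 ≤ m := by
    by_contra hcon
    push Not at hcon
    have h1 := Finset.card_eq_sum_card_fiberwise (s := Z) (t := Finset.univ)
      (f := fun p : V × Fin (2 * (s - 1)) => p.2) (fun _ _ => Finset.mem_coe.2 (Finset.mem_univ _))
    have h2 : ∑ _c : Fin (2 * (s - 1)), m ≤
        ∑ c : Fin (2 * (s - 1)), ((Z.filter fun p => p.2 = c).card * (s - 1) +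
          (if c = w.2 then 1 else 0)) :=
      Finset.sum_le_sum fun c _ => Nat.lt_succ_iff.1 (hcon c)
    rw [Finset.sum_add_distrib, ← Finset.sum_mul, ← h1] at h2
    simp only [Finset.sum_const, Finset.card_univ, Fintype.card_fin, smul_eq_mul,
      Finset.sum_ite_eq', Finset.mem_univ, if_true] at h2
    have e : 2 ≤ s - 1 := by omega
    generalize Z.card = z at h2 hZ1
    generalize s - 1 = a at h2 e
    nlinarith
  obtain ⟨c, hc⟩ := hex
  have h1 : ((Z.filter fun p => p.2 = c).image Prod.fst).card ≤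
    (Z.filter fun p => p.2 = c).card := Finset.card_image_le
  have h1' := Nat.mul_le_mul_right (s - 1) h1
  by_cases hcw : c = w.2
  · have hcol := colorable_of_dominated hloc σ hσ (Finset.univ.image σ)
      (fun x => Finset.mem_image_of_mem σ (Finset.mem_univ x)) (B.erase y)
      ((Z.filter fun p => p.2 = c).image Prod.fst) (fun x hx => by
        obtain ⟨hxy, hx⟩ := Finset.mem_erase.1 hx
        obtain ⟨z, hz, hxz⟩ := (hZ2 (x, c) hx).resolve_right fun h => hxy h.1
        exact ⟨z.1, Finset.mem_image_of_mem _ (Finset.mem_filter.2 ⟨hz, hxz.2.symm⟩), hxz.1⟩)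
    refine ⟨_, ?_, hcol⟩
    have : (Finset.univ.image σ \ B.erase y).card ≤ (Finset.univ.image σ \ B).card + 1 := by
      refine le_trans (Finset.card_le_card ?_) (Finset.card_insert_le y _)
      intro i hi
      simp only [Finset.mem_sdiff, Finset.mem_erase, Finset.mem_insert] at hi ⊢
      tauto
    rw [if_pos hcw] at hc
    omega
  · have hcol := colorable_of_dominated hloc σ hσ (Finset.univ.image σ)
      (fun x => Finset.mem_image_of_mem σ (Finset.mem_univ x)) B
      ((Z.filter fun p => p.2 = c).image Prod.fst) (fun x hx => by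
        obtain ⟨z, hz, hxz⟩ := (hZ2 (x, c) hx).resolve_right fun h => hcw h.2.2
        exact ⟨z.1, Finset.mem_image_of_mem _ (Finset.mem_filter.2 ⟨hz, hxz.2.symm⟩), hxz.1⟩)
    refine ⟨_, ?_, hcol⟩
    rw [if_neg hcw] at hc
    omega

/-- Either some closed neighbourhood sees all colours, or one colour can be saved. -/
theorem b_vertex [Fintype V] [Nonempty V] {G : SimpleGraph V}
    (σ : V → C) (hσ : ∀ x y, G.Adj x y → σ x ≠ σ y) :
    (∃ v, ∀ x, ∃ z ∈ insert v (G.neighborSet v), σ z = σ x) ∨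
      ∃ n, n + 1 ≤ (Finset.univ.image σ).card ∧ G.Colorable n := by
  by_contra hcon
  push Not at hcon
  obtain ⟨h1, h2⟩ := hcon
  choose d hd using h1
  obtain ⟨v0⟩ := ‹Nonempty V›
  have hmem : σ v0 ∈ Finset.univ.image σ := Finset.mem_image_of_mem σ (Finset.mem_univ _)
  refine h2 ((Finset.univ.image σ).erase (σ v0)).card
    (Finset.card_erase_add_one hmem).le ?_
  refine colorable_of_mem (fun x => if σ x = σ v0 then σ (d x) else σ x) _ (fun x => ?_)
    (fun x y hxy => ?_)
  · by_cases hx : σ x = σ v0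
    · simp only [hx, if_true, Finset.mem_erase, Finset.mem_image, Finset.mem_univ, true_and]
      exact ⟨fun e => hd x x (Or.inl rfl) (hx.trans e.symm), _, rfl⟩
    · simp [hx]
  · by_cases hx : σ x = σ v0 <;> by_cases hy : σ y = σ v0
    · exact (hσ x y hxy (hx.trans hy.symm)).elim
    · simp only [hx, hy, if_true, if_false]
      exact fun e => hd x y (Or.inr hxy) e.symm
    · simp only [hx, hy, if_true, if_false]
      exact fun e => hd y x (Or.inr hxy.symm) e
    · simpa only [hx, hy, if_false] using hσ x y hxy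

theorem toNat_le {G : SimpleGraph V} {n : ℕ} (h : G.Colorable n) :
    G.chromaticNumber.toNat ≤ n :=
  ENat.toNat_le_of_le_natCast h.chromaticNumber_le

theorem ncard_image (σ : V → C) (H : Finset V) :
    (σ '' (H : Set V)).ncard = (H.image σ).card := by
  rw [← Finset.coe_image, Set.ncard_coe_finset]

/-- The case where some closed neighbourhood sees all colours. -/
theorem of_b_vertex [Fintype V] {G : SimpleGraph V} {s : ℕ}
    (hloc : ∀ v, (G.induce (insert v (G.neighborSet v))).Colorable s)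
    (σ : V → C) (hσ : ∀ x y, G.Adj x y → σ x ≠ σ y) (v : V)
    (hv : ∀ x, ∃ z ∈ insert v (G.neighborSet v), σ z = σ x) :
    ∃ H : Set V, H.Nonempty ∧ (G.chromaticNumber.toNat : ℤ) - s ≤
      ((σ '' H).ncard : ℤ) - ((G.induce H).chromaticNumber.toNat : ℤ) := by
  refine ⟨insert v (G.neighborSet v), ⟨v, Or.inl rfl⟩, ?_⟩
  have h1 := toNat_le (hloc v)
  have h2 : σ '' insert v (G.neighborSet v) = (Finset.univ.image σ : Finset C) := by
    ext i
    simp only [Set.mem_image, Finset.coe_image, Finset.coe_univ, Set.mem_univ, true_and]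
    constructor
    · rintro ⟨x, -, hx⟩; exact ⟨x, hx⟩
    · rintro ⟨x, rfl⟩; exact hv x
  have h3 := toNat_le (colorable_of_mem σ (Finset.univ.image σ)
    (fun x => Finset.mem_image_of_mem σ (Finset.mem_univ x)) hσ)
  rw [h2, Set.ncard_coe_finset]
  omega

theorem main [Fintype V] [Nonempty V] {G : SimpleGraph V} {s : ℕ} (hs : 3 ≤ s)
    (hloc : ∀ v, (G.induce (insert v (G.neighborSet v))).Colorable s)
    (σ : V → C) (hσ : ∀ x y, G.Adj x y → σ x ≠ σ y) :
    ∃ H : Set V, H.Nonempty ∧ (G.chromaticNumber.toNat : ℤ) - 2 * s + 3 ≤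
      ((σ '' H).ncard : ℤ) - ((G.induce H).chromaticNumber.toNat : ℤ) := by
  rcases b_vertex σ hσ with ⟨v, hv⟩ | hsave
  · obtain ⟨H, h1, h2⟩ := of_b_vertex hloc σ hσ v hv
    exact ⟨H, h1, by omega⟩
  obtain ⟨H, hH1, hH2⟩ := exists_rainbow' hs hloc σ hσ
  obtain ⟨n, hn1, hn2⟩ : ∃ n, n + 1 ≤ (H.image σ).card ∧ G.Colorable n := by
    rcases hH2 with h | h
    · rw [h]; exact hsave
    · exact h
  refine ⟨H, ?_, ?_⟩
  · exact Finset.coe_nonempty.2 (Finset.image_nonempty.1
      (Finset.card_pos.1 (show 0 < (H.image σ).card by omega)))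
  · have h1 := toNat_le hH1
    have h2 := toNat_le hn2
    rw [ncard_image]
    omega

end Pool.Agent.Work.MP_ae9baf_co
end
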