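import Pool.Agent.Work.MP_ae9baf_co.Main
import Mathlib

-- merged part: Pool.Agent.Work.MP_ae9baf_co.Range
section
namespace Pool.Agent.Work.MP_ae9baf_co

open Classical

variable {V C : Type*}

theorem exists_matching (R : C → C → Prop) (hsymm : ∀ x y, R x y → R y x)
    (hirr : ∀ x, ¬ R x x) (K : Finset C) (r : ℕ) (hK : 2 * r ≤ K.card)
    (hdeg : ∀ x ∈ K, r ≤ (K.filter fun y => R x y).card) (j : ℕ) (hj : j ≤ r) :
    ∃ (L : Finset C) (f : C → C), L.card = j ∧ L ⊆ K ∧
      (∀ y ∈ L, f y ∈ K ∧ f y ∉ L ∧ R y (f y)) ∧ Set.InjOn f L := by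
  induction j with
  | zero => exact ⟨∅, id, rfl, by simp, by simp, by simp⟩
  | succ j ih =>
    obtain ⟨L, f, hL, hLK, hf, hinj⟩ := ih (by omega)
    have hS : (L ∪ L.image f).card ≤ 2 * j := by
      have := Finset.card_union_le L (L.image f)
      have := Finset.card_image_le (s := L) (f := f)
      omega
    have h2 : 1 < (K \ (L ∪ L.image f)).card := by
      have := Finset.le_card_sdiff (L ∪ L.image f) K
      omega
    have hext : ∀ x x', x ∈ K \ (L ∪ L.image f) → x' ∈ K \ (L ∪ L.image f) → x ≠ x' →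
        ∀ y ∈ L, R x y → R x' (f y) → ∃ (L : Finset C) (f : C → C), L.card = j + 1 ∧ L ⊆ K ∧
          (∀ y ∈ L, f y ∈ K ∧ f y ∉ L ∧ R y (f y)) ∧ Set.InjOn f L := by
      intro x x' hx hx' hne y hy h1 h2
      simp only [Finset.mem_sdiff, Finset.mem_union, Finset.mem_image, not_or, not_exists,
        not_and] at hx hx'
      refine ⟨insert x' L, fun z => if z = x' then f y else if z = y then x else f z,
        by rw [Finset.card_insert_of_notMem hx'.2.1, hL], Finset.insert_subset hx'.1 hLK, ?_, ?_⟩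
      · intro z hz
        by_cases c1 : z = x'
        · subst c1
          simp only [if_true, Finset.mem_insert, not_or]
          exact ⟨(hf y hy).1, ⟨hx'.2.2 y hy, (hf y hy).2.1⟩, h2⟩
        · have hzL : z ∈ L := (Finset.mem_insert.1 hz).resolve_left c1
          by_cases c2 : z = y
          · subst c2
            simp only [c1, if_false, if_true, Finset.mem_insert, not_or]
            exact ⟨hx.1, ⟨hne, hx.2.1⟩, hsymm _ _ h1⟩
          · simp only [c1, c2, if_false, Finset.mem_insert, not_or]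
            exact ⟨(hf z hzL).1, ⟨hx'.2.2 z hzL, (hf z hzL).2.1⟩, (hf z hzL).2.2⟩
      · intro z hz w hw e
        simp only [Finset.coe_insert, Set.mem_insert_iff, Finset.mem_coe] at hz hw
        dsimp only at e
        split_ifs at e with c1 c2 c3 c4 c5 c6 c7 c8
        · rw [c1, c2]
        · exact (hx.2.2 y hy e).elim
        · exact (c3 (hinj hy (hw.resolve_left c2) e).symm).elim
        · exact (hx.2.2 y hy e.symm).elim
        · rw [c4, c6]
        · exact (hx.2.2 w (hw.resolve_left c5) e.symm).elim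
        · exact (c4 (hinj (hz.resolve_left c1) hy e)).elim
        · exact (hx.2.2 z (hz.resolve_left c1) e).elim
        · exact hinj (hz.resolve_left c1) (hw.resolve_left c7) e
    by_cases hc : ∃ x ∈ K \ (L ∪ L.image f), ∃ x' ∈ K \ (L ∪ L.image f), R x x'
    · obtain ⟨x, hx, x', hx', hR⟩ := hc
      have hne : x ≠ x' := fun e => hirr x (e ▸ hR)
      simp only [Finset.mem_sdiff, Finset.mem_union, Finset.mem_image, not_or, not_exists,
        not_and] at hx hx'
      refine ⟨insert x L, fun z => if z = x then x' else f z,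
        by rw [Finset.card_insert_of_notMem hx.2.1, hL], Finset.insert_subset hx.1 hLK, ?_, ?_⟩
      · intro z hz
        by_cases c1 : z = x
        · subst c1
          simp only [if_true, Finset.mem_insert, not_or]
          exact ⟨hx'.1, ⟨hne.symm, hx'.2.1⟩, hR⟩
        · have hzL : z ∈ L := (Finset.mem_insert.1 hz).resolve_left c1
          simp only [c1, if_false, Finset.mem_insert, not_or]
          exact ⟨(hf z hzL).1, ⟨hx.2.2 z hzL, (hf z hzL).2.1⟩, (hf z hzL).2.2⟩
      · intro z hz w hw e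
        simp only [Finset.coe_insert, Set.mem_insert_iff, Finset.mem_coe] at hz hw
        dsimp only at e
        split_ifs at e with c1 c2 c3
        · rw [c1, c2]
        · exact (hx'.2.2 w (hw.resolve_left c2) e.symm).elim
        · exact (hx'.2.2 z (hz.resolve_left c1) e).elim
        · exact hinj (hz.resolve_left c1) (hw.resolve_left c3) e
    push Not at hc
    obtain ⟨x, hx, x', hx', hne⟩ := Finset.one_lt_card.1 h2
    have hcount : ∀ x ∈ K \ (L ∪ L.image f),
        r ≤ (L.filter fun y => R x y).card + (L.filter fun y => R x (f y)).card := by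
      intro x hx
      refine (hdeg x (Finset.mem_sdiff.1 hx).1).trans ?_
      refine le_trans (Finset.card_le_card (t := (L.filter fun y => R x y) ∪
        (L.filter fun y => R x (f y)).image f) ?_) ?_
      · intro z hz
        obtain ⟨hzK, hz⟩ := Finset.mem_filter.1 hz
        have : z ∈ L ∪ L.image f := by
          by_contra c
          exact hc x hx z (Finset.mem_sdiff.2 ⟨hzK, c⟩) hz
        rcases Finset.mem_union.1 this with h | h
        · exact Finset.mem_union_left _ (Finset.mem_filter.2 ⟨h, hz⟩)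
        · obtain ⟨w, hw, rfl⟩ := Finset.mem_image.1 h
          exact Finset.mem_union_right _ (Finset.mem_image_of_mem _ (Finset.mem_filter.2 ⟨hw, hz⟩))
      · exact (Finset.card_union_le _ _).trans (Nat.add_le_add_left Finset.card_image_le _)
    have hdisj : ∀ x x', (¬ ∃ y ∈ L, R x y ∧ R x' (f y)) →
        (L.filter fun y => R x y).card + (L.filter fun y => R x' (f y)).card ≤ j := by
      intro x x' h
      rw [← Finset.card_union_of_disjoint, ← hL]
      · exact Finset.card_le_card (Finset.union_subset (Finset.filter_subset _ _)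
          (Finset.filter_subset _ _))
      · exact Finset.disjoint_left.2 fun y h1 h2 =>
          h ⟨y, (Finset.mem_filter.1 h1).1, (Finset.mem_filter.1 h1).2, (Finset.mem_filter.1 h2).2⟩
    by_cases c1 : ∃ y ∈ L, R x y ∧ R x' (f y)
    · obtain ⟨y, hy, h1, h2⟩ := c1
      exact hext x x' hx hx' hne y hy h1 h2
    by_cases c2 : ∃ y ∈ L, R x' y ∧ R x (f y)
    · obtain ⟨y, hy, h1, h2⟩ := c2
      exact hext x' x hx' hx hne.symm y hy h1 h2
    have := hcount x hx
    have := hcount x' hx'
    have := hdisj x x' c1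
    have := hdisj x' x c2
    omega

theorem range_main [Fintype V] [Nonempty V] {G : SimpleGraph V} {s : ℕ} (hs : 2 ≤ s)
    (hloc : ∀ v, (G.induce (insert v (G.neighborSet v))).Colorable s)
    (hχ : G.chromaticNumber.toNat ≤ 2 * s + 1)
    (σ : V → C) (hσ : ∀ x y, G.Adj x y → σ x ≠ σ y) :
    ∃ H : Set V, H.Nonempty ∧ (G.chromaticNumber.toNat : ℤ) - s ≤
      ((σ '' H).ncard : ℤ) - ((G.induce H).chromaticNumber.toNat : ℤ) := by
  rcases b_vertex σ hσ with ⟨v, hv⟩ | ⟨n, hn1, hn2⟩
  · exact of_b_vertex hloc σ hσ v hv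
  have hn3 := toNat_le hn2
  by_cases hsmall : G.chromaticNumber.toNat ≤ s
  · obtain ⟨v⟩ := ‹Nonempty V›
    refine ⟨{v}, ⟨v, rfl⟩, ?_⟩
    have : (G.induce ({v} : Set V)).Colorable 1 :=
      ⟨SimpleGraph.Coloring.mk (fun _ => 0) fun {x y} h _ => by
        have hx : x.1 = v := x.2
        have hy : y.1 = v := y.2
        have h' : G.Adj x.1 y.1 := h
        rw [hx, hy] at h'
        exact G.irrefl h'⟩
    have := toNat_le this
    rw [Set.image_singleton, Set.ncard_singleton]
    omega
  obtain ⟨r, hr⟩ : ∃ r, G.chromaticNumber.toNat = s + r := ⟨G.chromaticNumber.toNat - s, by omega⟩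
  set K := Finset.univ.image σ with hK
  have hKm : ∀ x, σ x ∈ K := fun x => Finset.mem_image_of_mem σ (Finset.mem_univ x)
  let R : C → C → Prop := fun x y => x ≠ y ∧ ∃ u v, σ u = x ∧ σ v = y ∧ ¬ G.Adj u v
  obtain ⟨L, f, hL, hLK, hf, hinj⟩ := exists_matching R
    (fun x y ⟨h, u, v, h1, h2, h3⟩ => ⟨h.symm, v, u, h2, h1, fun h => h3 h.symm⟩)
    (fun x h => h.1 rfl) K r (by omega) (fun x hx => by
      obtain ⟨u, -, rfl⟩ := Finset.mem_image.1 hx
      have hcol := toNat_le (colorable_of_dominated hloc σ hσ K hKm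
        (K \ insert (σ u) (K.filter fun y => R (σ u) y)) {u} (fun z hz => by
          refine ⟨u, Finset.mem_singleton_self _, ?_⟩
          by_contra c
          simp only [Finset.mem_sdiff, Finset.mem_insert, Finset.mem_filter, not_or, not_and] at hz
          exact hz.2.2 hz.1 ⟨fun e => hz.2.1 e.symm, u, z, rfl, rfl, fun h => c h.symm⟩))
      have h1 : (K \ (K \ insert (σ u) (K.filter fun y => R (σ u) y))).card ≤
          (K.filter fun y => R (σ u) y).card + 1 := by
        refine le_trans (Finset.card_le_card ?_) (Finset.card_insert_le (σ u) _)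
        intro i hi
        simp only [Finset.mem_sdiff, not_and, not_not] at hi
        exact hi.2 hi.1
      rw [Finset.card_singleton] at hcol
      have : r ≤ (K.filter fun y => R (σ u) y).card := by omega
      convert this) r le_rfl
  have hch : ∀ y, ∃ u v : V, y ∈ L → σ u = y ∧ σ v = f y ∧ ¬ G.Adj u v := by
    intro y
    by_cases hy : y ∈ L
    · obtain ⟨-, u, v, h⟩ := (hf y hy).2.2
      exact ⟨u, v, fun _ => h⟩
    · obtain ⟨v⟩ := ‹Nonempty V›
      exact ⟨v, v, fun h => (hy h).elim⟩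
  choose p p' hp using hch
  let H : Set V := {w | ∃ y ∈ L, w = p y ∨ w = p' y}
  have hcol : (G.induce H).Colorable L.card := by
    have : ∀ w : H, ∃ y ∈ L, w.1 = p y ∨ w.1 = p' y := fun w => w.2
    choose c hc1 hc2 using this
    refine colorable_of_mem c L hc1 fun x y hxy e => ?_
    have hadj : G.Adj x.1 y.1 := hxy
    have h3 := (hp _ (hc1 x)).2.2
    rcases hc2 x with h1 | h1 <;> rcases hc2 y with h2 | h2 <;> rw [← e] at h2 <;>
      rw [h1, h2] at hadj
    · exact G.irrefl hadj
    · exact h3 hadj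
    · exact h3 hadj.symm
    · exact G.irrefl hadj
  have himg : σ '' H = (L ∪ L.image f : Finset C) := by
    ext i
    simp only [Set.mem_image, H, Set.mem_ofPred_eq, Finset.coe_union, Finset.coe_image,
      Set.mem_union, Finset.mem_coe]
    constructor
    · rintro ⟨w, ⟨y, hy, rfl | rfl⟩, rfl⟩
      · exact Or.inl (by rw [(hp y hy).1]; exact hy)
      · exact Or.inr ⟨y, hy, (hp y hy).2.1.symm⟩
    · rintro (hi | ⟨y, hy, rfl⟩)
      · exact ⟨p i, ⟨i, hi, Or.inl rfl⟩, (hp i hi).1⟩
      · exact ⟨p' y, ⟨y, hy, Or.inr rfl⟩, (hp y hy).2.1⟩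
  have hcard : (L ∪ L.image f).card = 2 * r := by
    rw [Finset.card_union_of_disjoint, Finset.card_image_of_injOn hinj, hL]
    · omega
    · refine Finset.disjoint_left.2 fun y h1 h2 => ?_
      obtain ⟨w, hw, rfl⟩ := Finset.mem_image.1 h2
      exact (hf w hw).2.1 h1
  refine ⟨H, ?_, ?_⟩
  · obtain ⟨y, hy⟩ := Finset.card_pos.1 (show 0 < L.card by omega)
    exact ⟨p y, y, hy, Or.inl rfl⟩
  · have := toNat_le hcol
    rw [himg, Set.ncard_coe_finset, hcard]
    omega

end Pool.Agent.Work.MP_ae9baf_co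
end

-- merged part: Pool.Agent.Work.MP_ae9baf_co.NearOpt
section
-- merged part: Pool.Agent.Work.MP_ae9baf_co.FirstFit
section
/-!
First-fit colouring of a set system in a random order, derandomised by two supermartingales.
-/

namespace Pool.Agent.Work.MP_ae9baf_co.FirstFit

open Classical Finset

variable {C : Type*}

/-- Removing a uniformly random point of `U`: `(1 + c / |U|) ^ |S ∩ U|` is a supermartingale. -/
theorem remove_avg (S U : Finset C) (n : ℕ) (hU : U.card = n + 1) (c : ℝ) (hc : 0 ≤ c) :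
    ∑ x ∈ U, (1 + c / n) ^ (S ∩ U.erase x).card ≤
      (n + 1) * (1 + c / (n + 1)) ^ (S ∩ U).card := by
  rcases Nat.eq_zero_or_pos n with rfl | hn
  · simp only [Nat.cast_zero, div_zero, add_zero, one_pow, sum_const, hU, zero_add, div_one,
      one_mul, smul_eq_mul, mul_one, one_smul]
    exact one_le_pow₀ (by linarith only [hc])
  have hn' : (0 : ℝ) < n := by exact_mod_cast hn
  set g : ℝ := c / n with hg
  have hg0 : 0 ≤ g := div_nonneg hc hn'.le
  have hcg : c / (n + 1) = g - g / (n + 1) := by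
    rw [hg]; field_simp; ring
  rw [hcg, ← Finset.sum_filter_add_sum_filter_not U (fun x => x ∈ S)]
  have e1 : U.filter (fun x => x ∈ S) = S ∩ U := by
    ext x; simp [and_comm]
  have h1 : ∑ x ∈ U.filter (fun x => x ∈ S), (1 + g) ^ (S ∩ U.erase x).card =
      (S ∩ U).card * (1 + g) ^ ((S ∩ U).card - 1) := by
    rw [e1, Finset.sum_congr rfl (g := fun _ => (1 + g) ^ ((S ∩ U).card - 1))]
    · simp
    · intro x hx
      rw [Finset.inter_erase, Finset.card_erase_of_mem hx]
  have h2 : ∑ x ∈ U.filter (fun x => ¬ x ∈ S), (1 + g) ^ (S ∩ U.erase x).card =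
      ((n + 1 : ℝ) - (S ∩ U).card) * (1 + g) ^ (S ∩ U).card := by
    rw [Finset.sum_congr rfl (g := fun _ => (1 + g) ^ (S ∩ U).card)]
    · have := Finset.card_filter_add_card_filter_not (s := U) (fun x => x ∈ S)
      rw [e1, hU] at this
      have h3 : ((U.filter (fun x => ¬ x ∈ S)).card : ℝ) = (n + 1 : ℝ) - (S ∩ U).card := by
        have : ((S ∩ U).card : ℝ) + (U.filter (fun x => ¬ x ∈ S)).card = n + 1 := by
          exact_mod_cast this
        linarith only [this]
      rw [Finset.sum_const, nsmul_eq_mul, h3]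
    · intro x hx
      have hx' : x ∉ S ∩ U := fun h => (Finset.mem_filter.1 hx).2 (Finset.mem_inter.1 h).1
      rw [Finset.inter_erase, Finset.erase_eq_of_notMem hx']
  rw [h1, h2]
  generalize (S ∩ U).card = y
  rcases y with _ | y
  · simp
  have hg1 : 0 < 1 + g := by linarith only [hg0]
  have hfac : 1 + (g - g / (n + 1)) = (1 + g) * (1 + -(g / ((n + 1) * (1 + g)))) := by
    field_simp; ring
  have hle : g / ((n + 1) * (1 + g)) ≤ 1 := by
    rw [div_le_one (by positivity)]; linarith only [hn', hg0, mul_nonneg_of_nonpos_of_nonpos (Mathlib.Tactic.Linarith.sub_nonpos_of_le (Mathlib.Tactic.Linarith.natCast_nonneg ℝ n)) (Mathlib.Tactic.Linarith.sub_nonpos_of_le hg0)]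
  have hb := one_add_mul_le_pow (a := -(g / ((n + 1) * (1 + g)))) (by linarith only [hle]) (y + 1)
  rw [hfac, mul_pow, Nat.add_sub_cancel]
  have e3 : ((y + 1 : ℕ) : ℝ) * (1 + g) ^ y + ((n + 1 : ℝ) - (y + 1 : ℕ)) * (1 + g) ^ (y + 1) =
      (n + 1) * ((1 + g) ^ (y + 1) * (1 + ((y + 1 : ℕ) : ℝ) * -(g / ((n + 1) * (1 + g))))) := by
    rw [pow_succ]; field_simp; ring
  rw [e3]
  gcongr

/-- The `i`-th colour class of the already coloured points. -/
noncomputable def cls (K U : Finset C) (c : C → ℕ) (i : ℕ) : Finset C :=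
  (K \ U).filter fun x => c x = i

/-- The points that cannot be added to `F`. -/
noncomputable def blk (P : Finset C → Prop) (K F : Finset C) : Finset C :=
  (K \ F).filter fun x => ¬ P (insert x F)

theorem mem_blk {P : Finset C → Prop} {K F : Finset C} {x : C} (h : x ∈ blk P K F) :
    x ∈ K \ F ∧ ¬ P (insert x F) := Finset.mem_filter.1 h

theorem cls_subset (K U : Finset C) (c : C → ℕ) (i : ℕ) : cls K U c i ⊆ K :=
  (Finset.filter_subset _ _).trans Finset.sdiff_subset

theorem colour_step (P : Finset C → Prop) (K U : Finset C) (hU : U ⊆ K)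
    (hP1 : ∀ x ∈ K, P {x}) (c : C → ℕ)
    (hinv : ∀ i, (cls K U c i).Nonempty → P (cls K U c i)) (a δ : ℝ) (hδ : 0 ≤ δ)
    (hB : ∀ F ⊆ K, F.Nonempty → P F → ((blk P K F ∩ U).card : ℝ) ≤ a * F.card) :
    ∃ f : C → ℕ, (∀ x ∈ U, P (insert x (cls K U c (f x)))) ∧
      ∑ x ∈ U, (1 + δ) ^ f x ≤ U.card + δ * a * ∑ x ∈ K \ U, (1 + δ) ^ c x := by
  have hex : ∀ x ∈ U, ∃ i, P (insert x (cls K U c i)) := by
    intro x hx
    refine ⟨K.sup c + 1, ?_⟩
    have : cls K U c (K.sup c + 1) = ∅ := by
      refine Finset.filter_eq_empty_iff.2 fun y hy e => ?_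
      have := Finset.le_sup (f := c) (Finset.mem_sdiff.1 hy).1
      omega
    rw [this]
    exact hP1 x (hU hx)
  refine ⟨fun x => if h : ∃ i, P (insert x (cls K U c i)) then Nat.find h else 0,
    fun x hx => ?_, ?_⟩
  · simp only [dif_pos (hex x hx)]
    exact Nat.find_spec (hex x hx)
  have hθ : 0 ≤ 1 + δ := by linarith only [hδ]
  have h1 : ∀ x ∈ U, (1 + δ) ^ (if h : ∃ i, P (insert x (cls K U c i)) then Nat.find h else 0) ≤
      1 + δ * ∑ j ∈ (K \ U).image c,
        if x ∈ blk P K (cls K U c j) then (1 + δ) ^ j else 0 := by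
    intro x hx
    rw [dif_pos (hex x hx)]
    have e := mul_geom_sum (1 + δ) (Nat.find (hex x hx))
    rw [add_sub_cancel_left] at e
    have h2 : ∑ j ∈ range (Nat.find (hex x hx)), (1 + δ) ^ j ≤
        ∑ j ∈ (K \ U).image c, if x ∈ blk P K (cls K U c j) then (1 + δ) ^ j else 0 := by
      rw [← Finset.sum_filter]
      refine Finset.sum_le_sum_of_subset_of_nonneg (fun j hj => ?_)
        (fun j _ _ => pow_nonneg hθ j)
      have hj' := Nat.find_min (hex x hx) (Finset.mem_range.1 hj)
      refine Finset.mem_filter.2 ⟨?_, Finset.mem_filter.2 ⟨Finset.mem_sdiff.2 ⟨hU hx, ?_⟩, hj'⟩⟩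
      · by_contra hc
        have : cls K U c j = ∅ := by
          refine Finset.filter_eq_empty_iff.2 fun y hy e => hc ?_
          exact Finset.mem_image.2 ⟨y, hy, e⟩
        rw [this] at hj'
        exact hj' (hP1 x (hU hx))
      · exact fun h => (Finset.mem_sdiff.1 (Finset.mem_filter.1 h).1).2 hx
    have := mul_le_mul_of_nonneg_left h2 hδ
    linarith only [hex, hx, e, this]
  refine (Finset.sum_le_sum h1).trans ?_
  rw [Finset.sum_add_distrib, Finset.sum_const, nsmul_eq_mul, mul_one, ← Finset.mul_sum,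
    Finset.sum_comm, mul_assoc]
  refine add_le_add le_rfl (mul_le_mul_of_nonneg_left ?_ hδ)
  rw [Finset.sum_comp (fun j => (1 + δ) ^ j) c, Finset.mul_sum]
  refine Finset.sum_le_sum fun j hj => ?_
  rw [← Finset.sum_filter, Finset.sum_const, nsmul_eq_mul, nsmul_eq_mul, ← mul_assoc]
  refine mul_le_mul_of_nonneg_right ?_ (pow_nonneg hθ j)
  have hne : (cls K U c j).Nonempty := by
    obtain ⟨y, hy, e⟩ := Finset.mem_image.1 hj
    exact ⟨y, Finset.mem_filter.2 ⟨hy, e⟩⟩
  have := hB _ (cls_subset K U c j) hne (hinv j hne)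
  have e : U.filter (fun x => x ∈ blk P K (cls K U c j)) = blk P K (cls K U c j) ∩ U := by
    ext x; simp [and_comm]
  rw [e]
  exact this

theorem cls_update (K U : Finset C) (hU : U ⊆ K) (c : C → ℕ) (x : C) (hx : x ∈ U) (j i : ℕ) :
    cls K (U.erase x) (Function.update c x j) i =
      if j = i then insert x (cls K U c i) else cls K U c i := by
  ext y
  by_cases hy : y = x
  · subst hy
    by_cases hj : j = i <;> simp [cls, hj, hx, hU hx]
  · by_cases hj : j = i <;> simp [cls, hj, hy]

theorem sum_update (K U : Finset C) (hU : U ⊆ K) (c : C → ℕ) (x : C) (hx : x ∈ U) (j : ℕ)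
    (θ : ℝ) : ∑ y ∈ K \ U.erase x, θ ^ Function.update c x j y =
      θ ^ j + ∑ y ∈ K \ U, θ ^ c y := by
  have hx' : x ∉ K \ U := fun h => (Finset.mem_sdiff.1 h).2 hx
  have e : K \ U.erase x = insert x (K \ U) := by
    ext y
    by_cases hy : y = x
    · subst hy; simp [hU hx]
    · simp [hy]
  rw [e, Finset.sum_insert hx', Function.update_self]
  congr 1
  refine Finset.sum_congr rfl fun y hy => ?_
  rw [Function.update_of_ne (fun h : y = x => hx' (h ▸ hy))]

/-- First potential. -/
noncomputable def pot1 (P : Finset C → Prop) (K : Finset C) (g a : ℕ → ℝ) (U : Finset C) : ℝ :=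
  ∑ m ∈ range K.card, ∑ F ∈ K.powerset.filter (fun F => F.Nonempty ∧ P F),
    (1 + g m * (m + 1) / U.card) ^ (blk P K F ∩ U).card *
      Real.exp (-(a m * Real.log (1 + g m) * F.card))

/-- Second potential, up to normalisation. -/
noncomputable def pot2 (K : Finset C) (a : ℕ → ℝ) (δ : ℝ) (U : Finset C) (c : C → ℕ) : ℝ :=
  (∑ x ∈ K \ U, (1 + δ) ^ c x + U.card) * ∏ m ∈ range U.card, (1 + δ * a m / (m + 1))

theorem pot1_nonneg (P : Finset C → Prop) (K : Finset C) (g a : ℕ → ℝ) (hg : ∀ m, 0 < g m)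
    (U : Finset C) : 0 ≤ pot1 P K g a U := by
  refine Finset.sum_nonneg fun m _ => Finset.sum_nonneg fun F _ => ?_
  have := hg m
  positivity

theorem pot2_nonneg (K : Finset C) (a : ℕ → ℝ) (ha : ∀ m, 0 ≤ a m) (δ : ℝ) (hδ : 0 ≤ δ)
    (U : Finset C) (c : C → ℕ) : 0 ≤ pot2 K a δ U c := by
  refine mul_nonneg (by positivity) (Finset.prod_nonneg fun m _ => ?_)
  have := ha m
  positivity

theorem pot1_avg (P : Finset C → Prop) (K : Finset C) (g a : ℕ → ℝ) (hg : ∀ m, 0 < g m)
    (U : Finset C) (n : ℕ) (hU : U.card = n + 1) :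
    ∑ x ∈ U, pot1 P K g a (U.erase x) ≤ (n + 1) * pot1 P K g a U := by
  unfold pot1
  rw [Finset.sum_comm, Finset.mul_sum]
  refine Finset.sum_le_sum fun m _ => ?_
  rw [Finset.sum_comm, Finset.mul_sum]
  refine Finset.sum_le_sum fun F _ => ?_
  rw [← Finset.sum_mul, ← mul_assoc]
  refine mul_le_mul_of_nonneg_right ?_ (Real.exp_pos _).le
  have := remove_avg (blk P K F) U n hU (g m * (m + 1)) (by have := hg m; positivity)
  rw [hU]
  push_cast
  refine le_trans (le_of_eq (Finset.sum_congr rfl fun x hx => ?_)) this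
  rw [Finset.card_erase_of_mem hx, hU, Nat.add_sub_cancel]

theorem pot1_good (P : Finset C → Prop) (K : Finset C) (g a : ℕ → ℝ) (hg : ∀ m, 0 < g m)
    (U : Finset C) (hUK : U ⊆ K) (n : ℕ) (hU : U.card = n + 1) (h : pot1 P K g a U ≤ 1)
    (F : Finset C) (hF : F ⊆ K) (hne : F.Nonempty) (hP : P F) :
    ((blk P K F ∩ U).card : ℝ) ≤ a n * F.card := by
  have hn : n ∈ range K.card := by
    have := Finset.card_le_card hUK
    exact Finset.mem_range.2 (by omega)
  have h1 := (Finset.single_le_sum (f := fun m : ℕ =>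
    ∑ F ∈ K.powerset.filter (fun F => F.Nonempty ∧ P F),
    (1 + g m * (m + 1) / U.card) ^ (blk P K F ∩ U).card *
      Real.exp (-(a m * Real.log (1 + g m) * F.card)))
    (fun m _ => Finset.sum_nonneg fun F _ => by have := hg m; positivity) hn).trans h
  have h2 := (Finset.single_le_sum (f := fun F : Finset C =>
    (1 + g n * (n + 1) / U.card) ^ (blk P K F ∩ U).card *
      Real.exp (-(a n * Real.log (1 + g n) * F.card)))
    (fun F _ => by have := hg n; positivity)
    (Finset.mem_filter.2 ⟨Finset.mem_powerset.2 hF, hne, hP⟩)).trans h1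
  have hgn := hg n
  have e : g n * (n + 1) / U.card = g n := by
    rw [hU]; push_cast; field_simp
  simp only [e] at h2
  have hl : 0 < Real.log (1 + g n) := Real.log_pos (by linarith only [hgn])
  rw [← Real.exp_log (show 0 < 1 + g n by linarith only [hgn]), ← Real.exp_nat_mul, ← Real.exp_add,
    Real.exp_log (show 0 < 1 + g n by linarith only [hgn]), Real.exp_le_one_iff] at h2
  by_contra hc
  push Not at hc
  linarith only [h2, hl, hc, mul_pos_of_neg_of_neg (Mathlib.Tactic.Linarith.sub_neg_of_lt hl) (Mathlib.Tactic.Linarith.sub_neg_of_lt hc)]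

theorem step (P : Finset C → Prop) (K : Finset C) (hP1 : ∀ x ∈ K, P {x}) (g a : ℕ → ℝ)
    (hg : ∀ m, 0 < g m) (ha : ∀ m, 0 ≤ a m) (δ : ℝ) (hδ : 0 ≤ δ) (N : ℝ) (hN : 0 < N)
    (U : Finset C) (hUK : U ⊆ K) (n : ℕ) (hU : U.card = n + 1) (c : C → ℕ)
    (hinv : ∀ i, (cls K U c i).Nonempty → P (cls K U c i))
    (h : pot1 P K g a U + pot2 K a δ U c / N ≤ 1) :
    ∃ x ∈ U, ∃ c' : C → ℕ, (∀ i, (cls K (U.erase x) c' i).Nonempty → P (cls K (U.erase x) c' i)) ∧
      pot1 P K g a (U.erase x) + pot2 K a δ (U.erase x) c' / N ≤ 1 := by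
  have h0 : pot1 P K g a U ≤ 1 := by
    have := div_nonneg (pot2_nonneg K a ha δ hδ U c) hN.le
    linarith only [h, this]
  obtain ⟨f, hf1, hf2⟩ := colour_step P K U hUK hP1 c hinv (a n) δ hδ
    (pot1_good P K g a hg U hUK n hU h0)
  have hA := pot1_avg P K g a hg U n hU
  have hB : ∑ x ∈ U, pot2 K a δ (U.erase x) (Function.update c x (f x)) ≤
      (n + 1) * pot2 K a δ U c := by
    have e : ∀ x ∈ U, pot2 K a δ (U.erase x) (Function.update c x (f x)) =
        ((1 + δ) ^ f x + (∑ x ∈ K \ U, (1 + δ) ^ c x + n)) *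
          ∏ m ∈ range n, (1 + δ * a m / (m + 1)) := by
      intro x hx
      unfold pot2
      rw [sum_update K U hUK c x hx, Finset.card_erase_of_mem hx, hU, Nat.add_sub_cancel,
        add_assoc]
    rw [Finset.sum_congr rfl e, ← Finset.sum_mul, Finset.sum_add_distrib, Finset.sum_const,
      nsmul_eq_mul]
    unfold pot2
    rw [hU] at hf2 ⊢
    rw [Finset.prod_range_succ]
    have hR : 0 ≤ ∏ m ∈ range n, (1 + δ * a m / (m + 1)) :=
      Finset.prod_nonneg fun m _ => by have := ha m; positivity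
    have hZ : 0 ≤ ∑ x ∈ K \ U, (1 + δ) ^ c x := by positivity
    generalize ∏ m ∈ range n, (1 + δ * a m / (m + 1)) = R at hR ⊢
    generalize ∑ x ∈ K \ U, (1 + δ) ^ c x = Z at hZ hf2 ⊢
    generalize ∑ x ∈ U, (1 + δ) ^ f x = Y at hf2 ⊢
    push_cast at hf2 ⊢
    have e2 : ((n : ℝ) + 1) * ((Z + (n + 1)) * (R * (1 + δ * a n / (n + 1)))) =
        ((Z + (n + 1)) * (n + 1 + δ * a n)) * R := by
      field_simp
    rw [e2]
    refine mul_le_mul_of_nonneg_right ?_ hR
    have := mul_nonneg hδ (ha n)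
    have hn : (0 : ℝ) ≤ n := Nat.cast_nonneg n
    linarith only [hf2, this, mul_nonneg_of_nonpos_of_nonpos (Mathlib.Tactic.Linarith.sub_nonpos_of_le (Mathlib.Tactic.Linarith.natCast_nonneg ℝ n)) (Mathlib.Tactic.Linarith.sub_nonpos_of_le this)]
  have hne : U.Nonempty := Finset.card_pos.1 (by omega)
  obtain ⟨x, hx, hx2⟩ := Finset.exists_le_of_sum_le hne
    (f := fun x => pot1 P K g a (U.erase x) +
      pot2 K a δ (U.erase x) (Function.update c x (f x)) / N) (g := fun _ => 1) (by
      rw [Finset.sum_add_distrib, ← Finset.sum_div, Finset.sum_const, nsmul_eq_mul, hU]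
      push_cast
      have h3 := div_le_div_of_nonneg_right hB hN.le
      rw [mul_div_assoc] at h3
      have hn : (0 : ℝ) ≤ n + 1 := by positivity
      have := mul_le_mul_of_nonneg_left h hn
      linarith only [hA, h3, this])
  refine ⟨x, hx, _, fun i => ?_, hx2⟩
  rw [cls_update K U hUK c x hx]
  split_ifs with hi
  · exact fun _ => hi ▸ hf1 x hx
  · exact hinv i

theorem run (P : Finset C → Prop) (K : Finset C) (hP1 : ∀ x ∈ K, P {x}) (g a : ℕ → ℝ)
    (hg : ∀ m, 0 < g m) (ha : ∀ m, 0 ≤ a m) (δ : ℝ) (hδ : 0 ≤ δ) (N : ℝ) (hN : 0 < N) (n : ℕ) :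
    ∀ U ⊆ K, U.card = n → ∀ c : C → ℕ, (∀ i, (cls K U c i).Nonempty → P (cls K U c i)) →
      pot1 P K g a U + pot2 K a δ U c / N ≤ 1 →
      ∃ c' : C → ℕ, (∀ i, (cls K ∅ c' i).Nonempty → P (cls K ∅ c' i)) ∧
        pot1 P K g a ∅ + pot2 K a δ ∅ c' / N ≤ 1 := by
  induction n with
  | zero =>
    intro U _ hU c h1 h2
    rw [Finset.card_eq_zero] at hU
    subst hU
    exact ⟨c, h1, h2⟩
  | succ n ih =>
    intro U hUK hU c h1 h2
    obtain ⟨x, hx, c', h3, h4⟩ := step P K hP1 g a hg ha δ hδ N hN U hUK n hU c h1 h2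
    exact ih _ ((Finset.erase_subset x U).trans hUK)
      (by rw [Finset.card_erase_of_mem hx, hU, Nat.add_sub_cancel]) c' h3 h4

theorem pot1_init (P : Finset C → Prop) (K : Finset C) (hK : K.Nonempty) (g a : ℕ → ℝ)
    (hg : ∀ m, 0 < g m) (A L : ℝ) (hL : 4 * (K.card : ℝ) ^ 2 ≤ Real.exp L)
    (hB : ∀ F ⊆ K, F.Nonempty → P F → ((blk P K F).card : ℝ) ≤ A * F.card)
    (hga : ∀ m < K.card, g m * (A * (m + 1) / K.card) + L ≤ a m * Real.log (1 + g m)) :
    pot1 P K g a K ≤ 1 / 2 := by
  have hk : (1 : ℝ) ≤ K.card := by exact_mod_cast hK.card_pos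
  set z := Real.exp (-L) with hz
  have hz0 : 0 < z := Real.exp_pos _
  have hz1 : 4 * (K.card : ℝ) ^ 2 * z ≤ 1 := by
    have := mul_le_mul_of_nonneg_right hL hz0.le
    rwa [hz, ← Real.exp_add, add_neg_cancel, Real.exp_zero] at this
  have hsum : ∑ F ∈ K.powerset.filter (fun F => F.Nonempty ∧ P F), z ^ F.card ≤
      2 * (K.card * z) := by
    have h1 : ∑ F ∈ K.powerset, z ^ F.card = (1 + z) ^ K.card := by
      have := Finset.prod_one_add (f := fun _ : C => z) K
      simpa using this.symm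
    have h2 : ∑ F ∈ K.powerset.filter (fun F => F.Nonempty ∧ P F), z ^ F.card ≤
        ∑ F ∈ K.powerset.erase ∅, z ^ F.card := by
      refine Finset.sum_le_sum_of_subset_of_nonneg (fun F hF => ?_) (fun _ _ _ => by positivity)
      obtain ⟨h1, h2, -⟩ := Finset.mem_filter.1 hF
      exact Finset.mem_erase.2 ⟨h2.ne_empty, h1⟩
    have h3 := Finset.add_sum_erase K.powerset (fun F => z ^ F.card)
      (Finset.empty_mem_powerset K)
    simp only [Finset.card_empty, pow_zero] at h3
    have h4 : (1 + z) ^ K.card ≤ Real.exp (K.card * z) := by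
      rw [Real.exp_nat_mul]
      exact pow_le_pow_left₀ (by linarith only [hz0]) (by linarith [Real.add_one_le_exp z]) _
    have h5 : K.card * z ≤ 1 / 4 := by (refine le_of_not_gt fun h_nl => ?_; linarith only [h_nl, hk, hz1, mul_nonneg_of_nonpos_of_nonpos (Mathlib.Tactic.Linarith.sub_nonpos_of_le hk) (le_of_lt (Mathlib.Tactic.Linarith.sub_neg_of_lt h_nl))])
    have h6 := Real.exp_bound_div_one_sub_of_interval (x := K.card * z) (by positivity)
      (by linarith only [h5])
    have h7 : 1 / (1 - K.card * z) ≤ 1 + 2 * (K.card * z) := by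
      rw [div_le_iff₀ (by linarith only [h5])]
      have : 0 ≤ K.card * z := by positivity
      linarith only [hz0, hk, hz1, mul_nonneg_of_nonpos_of_nonpos (Mathlib.Tactic.Linarith.sub_nonpos_of_le hk) (le_of_lt (Mathlib.Tactic.Linarith.sub_neg_of_lt hz0)), mul_nonneg_of_nonpos_of_nonpos (le_of_lt (Mathlib.Tactic.Linarith.sub_neg_of_lt hz0)) (Mathlib.Tactic.Linarith.sub_nonpos_of_le hz1)]
    linarith only [h1, h2, h3, h4, h6, h7]
  have hterm : ∀ m ∈ range K.card, ∑ F ∈ K.powerset.filter (fun F => F.Nonempty ∧ P F),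
      (1 + g m * (m + 1) / K.card) ^ (blk P K F ∩ K).card *
        Real.exp (-(a m * Real.log (1 + g m) * F.card)) ≤ 2 * (K.card * z) := by
    intro m hm
    refine le_trans (Finset.sum_le_sum fun F hF => ?_) hsum
    obtain ⟨h1, h2, h3⟩ := Finset.mem_filter.1 hF
    have hgm := hg m
    have h4 : ((blk P K F ∩ K).card : ℝ) ≤ A * F.card :=
      le_trans (by exact_mod_cast Finset.card_le_card Finset.inter_subset_left)
        (hB F (Finset.mem_powerset.1 h1) h2 h3)
    have h5 : (1 + g m * (m + 1) / K.card) ^ (blk P K F ∩ K).card ≤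
        Real.exp ((blk P K F ∩ K).card * (g m * (m + 1) / K.card)) := by
      rw [Real.exp_nat_mul]
      exact pow_le_pow_left₀ (by positivity)
        (by linarith only [Real.add_one_le_exp (g m * (m + 1) / K.card)]) _
    refine le_trans (mul_le_mul_of_nonneg_right h5 (Real.exp_pos _).le) ?_
    rw [← Real.exp_add, hz, ← Real.exp_nat_mul, Real.exp_le_exp]
    have h6 := mul_le_mul_of_nonneg_right h4 (show 0 ≤ g m * (m + 1) / K.card by positivity)
    have h7 := mul_le_mul_of_nonneg_right (hga m (Finset.mem_range.1 hm))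
      (Nat.cast_nonneg (α := ℝ) F.card)
    have e : A * F.card * (g m * (m + 1) / K.card) =
        g m * (A * (m + 1) / K.card) * F.card := by ring
    linarith only [h6, h7, e]
  refine le_trans (Finset.sum_le_sum hterm) ?_
  rw [Finset.sum_const, Finset.card_range, nsmul_eq_mul]
  linarith only [hz1]

/-- The abstract covering theorem, with free parameters. -/
theorem cover (P : Finset C → Prop) (K : Finset C) (hK : K.Nonempty) (hP1 : ∀ x ∈ K, P {x})
    (g a : ℕ → ℝ) (hg : ∀ m, 0 < g m) (ha : ∀ m, 0 ≤ a m) (A L : ℝ)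
    (hL : 4 * (K.card : ℝ) ^ 2 ≤ Real.exp L)
    (hB : ∀ F ⊆ K, F.Nonempty → P F → ((blk P K F).card : ℝ) ≤ A * F.card)
    (hga : ∀ m < K.card, g m * (A * (m + 1) / K.card) + L ≤ a m * Real.log (1 + g m))
    (δ : ℝ) (hδ : 0 ≤ δ) :
    ∃ c : C → ℕ, (∀ i, (K.filter fun x => c x = i).Nonempty → P (K.filter fun x => c x = i)) ∧
      ∀ x ∈ K, (1 + δ) ^ c x ≤ Real.exp (L + δ * ∑ m ∈ range K.card, a m / (m + 1)) := by
  have hk : (1 : ℝ) ≤ K.card := by exact_mod_cast hK.card_pos
  set R := ∏ m ∈ range K.card, (1 + δ * a m / (m + 1)) with hR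
  have hR0 : 0 < R := Finset.prod_pos fun m _ => by have := ha m; positivity
  obtain ⟨c, h1, h2⟩ := run P K hP1 g a hg ha δ hδ (2 * K.card * R) (by positivity) K.card K
    le_rfl rfl (fun _ => 0) (fun i h => by simp [cls] at h) (by
      have := pot1_init P K hK g a hg A L hL hB hga
      have e : pot2 K a δ K (fun _ => 0) / (2 * K.card * R) = 1 / 2 := by
        unfold pot2
        rw [← hR, Finset.sdiff_self, Finset.sum_empty]
        field_simp
        ring
      linarith only [this, e])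
  refine ⟨c, by simpa [cls] using h1, fun x hx => ?_⟩
  have h3 := pot1_nonneg P K g a hg ∅
  have h4 : pot2 K a δ ∅ c ≤ 2 * K.card * R := by
    rw [← div_le_one (by positivity)]; linarith only [h2, h3]
  have h5 : (1 + δ) ^ c x ≤ pot2 K a δ ∅ c := by
    unfold pot2
    simp only [Finset.sdiff_empty, Finset.card_empty, Nat.cast_zero, add_zero, range_zero,
      prod_empty, mul_one]
    exact Finset.single_le_sum (f := fun x => (1 + δ) ^ c x) (fun _ _ => by positivity) hx
  have h6 : R ≤ Real.exp (δ * ∑ m ∈ range K.card, a m / (m + 1)) := by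
    rw [Finset.mul_sum, Real.exp_sum]
    refine Finset.prod_le_prod (fun m _ => by have := ha m; positivity) fun m _ => ?_
    rw [← mul_div_assoc]
    linarith only [Real.add_one_le_exp (δ * a m / (m + 1))]
  rw [Real.exp_add]
  refine h5.trans (h4.trans ?_)
  exact mul_le_mul (by linarith only [hL, hk, mul_nonneg_of_nonpos_of_nonpos (Mathlib.Tactic.Linarith.sub_nonpos_of_le (Mathlib.Tactic.Linarith.natCast_nonneg ℝ #K)) (Mathlib.Tactic.Linarith.sub_nonpos_of_le hk)]) h6 hR0.le (Real.exp_pos _).le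

end Pool.Agent.Work.MP_ae9baf_co.FirstFit
end

-- merged part: Pool.Agent.Work.MP_ae9baf_co.Bounds
section
/-!
Choice of the parameters in the first-fit covering theorem.
-/

namespace Pool.Agent.Work.MP_ae9baf_co.FirstFit

open Classical Finset

variable {C : Type*}

theorem log_ge (x : ℝ) (hx : 0 ≤ x) : x / (1 + x) ≤ Real.log (1 + x) := by
  have := Real.one_sub_inv_le_log_of_pos (show 0 < 1 + x by linarith)
  have e : x / (1 + x) = 1 - (1 + x)⁻¹ := by field_simp; ring
  linarith only [this, e]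

theorem sum_inv_sqrt (k : ℕ) : ∑ m ∈ range k, 1 / √((m : ℝ) + 1) ≤ 2 * √k := by
  induction k with
  | zero => simp
  | succ k ih =>
    rw [Finset.sum_range_succ]
    push_cast
    have h1 : 0 < √((k : ℝ) + 1) := Real.sqrt_pos.2 (by positivity)
    have h2 := Real.sq_sqrt (show (0 : ℝ) ≤ k + 1 by positivity)
    have h3 := Real.sq_sqrt (show (0 : ℝ) ≤ k by positivity)
    have h4 : 1 / √((k : ℝ) + 1) ≤ 2 * √((k : ℝ) + 1) - 2 * √k := by
      rw [div_le_iff₀ h1]
      linarith only [h2, h3, sq_nonneg (√((k : ℝ) + 1) - √k), sq_nonneg (√(↑k + (1 : ℝ)) - √↑k)]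
    linarith only [ih, h4]

theorem one_le_v (n0 x : ℝ) (hx : 0 < x) (h : x < n0) : 1 ≤ 1 + Real.log (n0 / x) := by
  have := Real.log_nonneg ((one_le_div hx).2 h.le)
  linarith only [this]

theorem sum_loglog_aux (n0 : ℝ) (j : ℕ) :
    ∑ m ∈ range (j + 1), (if (m : ℝ) + 1 < n0 then
      1 / (((m : ℝ) + 1) * (1 + Real.log (n0 / (m + 1)))) else 0) +
      (if (j : ℝ) + 1 < n0 then 2 * Real.log (1 + Real.log (n0 / (j + 1))) else 0) ≤
      1 + (if 1 < n0 then 2 * Real.log (1 + Real.log n0) else 0) := by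
  induction j with
  | zero =>
    simp only [zero_add, range_one, sum_singleton, Nat.cast_zero, div_one, one_mul]
    split_ifs with h
    · have := one_le_v n0 1 one_pos h
      rw [div_one] at this
      have : 1 / (1 + Real.log n0) ≤ 1 := by rw [div_le_one (by linarith)]; exact this
      linarith only [this]
    · simp
  | succ j ih =>
    rw [Finset.sum_range_succ]
    push_cast
    have hj : (0 : ℝ) < j + 1 := by positivity
    by_cases h : (j : ℝ) + 1 + 1 < n0
    · have h' : (j : ℝ) + 1 < n0 := by linarith only [h]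
      rw [if_pos h'] at ih
      rw [if_pos h, if_pos h]
      have hv := one_le_v n0 _ (by positivity) h
      have hn0 : 0 < n0 := by linarith only [h]
      have e : Real.log (n0 / (j + 1)) =
          Real.log (n0 / (j + 1 + 1)) + Real.log (1 + 1 / (j + 1)) := by
        rw [← Real.log_mul (by positivity) (by positivity)]
        congr 1
        field_simp
      have d1 := log_ge (1 / (j + 1)) (by positivity)
      have e1 : 1 / ((j : ℝ) + 1) / (1 + 1 / (j + 1)) = 1 / (j + 1 + 1) := by field_simp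
      rw [e1] at d1
      have d2 : Real.log (1 + 1 / ((j : ℝ) + 1)) ≤ 1 := by
        have := Real.log_le_sub_one_of_pos (show (0 : ℝ) < 1 + 1 / (j + 1) by positivity)
        have : 1 / ((j : ℝ) + 1) ≤ 1 := by
          rw [div_le_one hj]; linarith only [Nat.cast_nonneg (α := ℝ) j]
        linarith
      rw [e] at ih
      generalize Real.log (1 + 1 / ((j : ℝ) + 1)) = d at d1 d2 ih
      generalize Real.log (n0 / ((j : ℝ) + 1 + 1)) = w at hv ih ⊢
      have hd : 0 < d := lt_of_lt_of_le (by positivity) d1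
      have e2 : Real.log (1 + (w + d)) = Real.log (1 + w) + Real.log (1 + d / (1 + w)) := by
        rw [← Real.log_mul (by linarith only [hv]) (by positivity)]
        congr 1
        field_simp
        ring
      have d3 := log_ge (d / (1 + w)) (by positivity)
      have e3 : d / (1 + w) / (1 + d / (1 + w)) = d / (1 + w + d) := by field_simp
      rw [e3] at d3
      have d4 : 1 / ((j + 1 + 1) * (1 + w)) ≤ 2 * (d / (1 + w + d)) := by
        rw [← div_div, ← mul_div_assoc, div_le_div_iff₀ (by linarith only [hv]) (by linarith only [hv, hd])]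
        have : 0 < 1 / ((j : ℝ) + 1 + 1) := by positivity
        linarith only [d1, hv, hd, d2, mul_nonneg_of_nonpos_of_nonpos (Mathlib.Tactic.Linarith.sub_nonpos_of_le d1) (Mathlib.Tactic.Linarith.sub_nonpos_of_le hv), mul_nonneg_of_nonpos_of_nonpos (Mathlib.Tactic.Linarith.sub_nonpos_of_le d1) (le_of_lt (Mathlib.Tactic.Linarith.sub_neg_of_lt hd)), mul_nonneg_of_nonpos_of_nonpos (Mathlib.Tactic.Linarith.sub_nonpos_of_le d2) (le_of_lt (Mathlib.Tactic.Linarith.sub_neg_of_lt hd)), mul_nonneg_of_nonpos_of_nonpos (Mathlib.Tactic.Linarith.sub_nonpos_of_le hv) (le_of_lt (Mathlib.Tactic.Linarith.sub_neg_of_lt hd))]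
      linarith only [ih, e2, d3, d4]
    · rw [if_neg h, if_neg h]
      have : 0 ≤ (if (j : ℝ) + 1 < n0 then 2 * Real.log (1 + Real.log (n0 / (j + 1))) else 0) := by
        split_ifs with h'
        · have := Real.log_nonneg (one_le_v n0 _ hj h')
          linarith only [this]
        · exact le_rfl
      linarith only [ih, this]

theorem sum_loglog (n0 : ℝ) (hn0 : 1 ≤ n0) (k : ℕ) :
    ∑ m ∈ range k, (if (m : ℝ) + 1 < n0 then
      1 / (((m : ℝ) + 1) * (1 + Real.log (n0 / (m + 1)))) else 0) ≤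
      1 + 2 * Real.log (1 + Real.log n0) := by
  have h0 : 0 ≤ Real.log (1 + Real.log n0) :=
    Real.log_nonneg (by linarith [Real.log_nonneg hn0])
  rcases k with _ | j
  · simp only [range_zero, sum_empty]; linarith
  have := sum_loglog_aux n0 j
  have h1 : 0 ≤ (if (j : ℝ) + 1 < n0 then 2 * Real.log (1 + Real.log (n0 / (j + 1))) else 0) := by
    split_ifs with h'
    · have := Real.log_nonneg (one_le_v n0 _ (by positivity) h')
      linarith only [this]
    · exact le_rfl
  have h2 : (if 1 < n0 then 2 * Real.log (1 + Real.log n0) else 0) ≤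
      2 * Real.log (1 + Real.log n0) := by
    split_ifs <;> linarith only [h0]
  linarith only [this, h1, h2]

/-- The parameters at one level. -/
theorem level (μ L : ℝ) (hμ : 0 < μ) (hL : 0 < L) :
    ∃ g a : ℝ, 0 < g ∧ 0 ≤ a ∧ g * μ + L ≤ a * Real.log (1 + g) ∧
      a ≤ μ + 3 * √(μ * L) + if μ < L then 4 * L / (1 + Real.log (L / μ)) else 0 := by
  by_cases h : μ < L
  · have hy : 1 < L / μ := (one_lt_div hμ).2 h
    have hl : 0 < Real.log (1 + L / μ) := Real.log_pos (by linarith only [hy])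
    refine ⟨L / μ, 2 * L / Real.log (1 + L / μ), by positivity, by positivity, ?_, ?_⟩
    · rw [div_mul_cancel₀ _ hl.ne', div_mul_cancel₀ _ hμ.ne']
      linarith only []
    · rw [if_pos h]
      have h1 : 1 + Real.log (L / μ) ≤ 2 * Real.log (1 + L / μ) := by
        have e1 : 1 + Real.log (L / μ) = Real.log (Real.exp 1 * (L / μ)) := by
          rw [Real.log_mul (Real.exp_pos _).ne' (by positivity), Real.log_exp]
        have e2 : 2 * Real.log (1 + L / μ) = Real.log ((1 + L / μ) ^ 2) := by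
          rw [Real.log_pow]; norm_num
        rw [e1, e2]
        refine Real.log_le_log (by positivity) ?_
        have := Real.exp_one_lt_d9
        linarith only [hy, this, sq_nonneg (L / μ - 1), mul_pos_of_neg_of_neg (Mathlib.Tactic.Linarith.sub_neg_of_lt hy) (Mathlib.Tactic.Linarith.sub_neg_of_lt hy), mul_pos_of_neg_of_neg (Mathlib.Tactic.Linarith.sub_neg_of_lt hy) (Mathlib.Tactic.Linarith.sub_neg_of_lt this)]
      have h2 := Real.log_nonneg hy.le
      have h3 : 2 * L / Real.log (1 + L / μ) ≤ 4 * L / (1 + Real.log (L / μ)) := by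
        rw [div_le_div_iff₀ hl (by linarith only [h2])]
        linarith only [hL, h1, mul_nonneg_of_nonpos_of_nonpos (le_of_lt (Mathlib.Tactic.Linarith.sub_neg_of_lt hL)) (Mathlib.Tactic.Linarith.sub_nonpos_of_le h1)]
      have := Real.sqrt_nonneg (μ * L)
      linarith only [hμ, h3, this]
  · rw [if_neg h, Real.sqrt_mul hμ.le]
    push Not at h
    have hu : 0 < √μ := Real.sqrt_pos.2 hμ
    have hw : 0 < √L := Real.sqrt_pos.2 hL
    have hwu : √L ≤ √μ := Real.sqrt_le_sqrt h
    have eu := Real.sq_sqrt hμ.le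
    have ew := Real.sq_sqrt hL.le
    generalize √μ = u at *
    generalize √L = w at *
    subst eu ew
    refine ⟨w / u, u ^ 2 + 3 * (u * w), by positivity, by positivity, ?_, by simp⟩
    have h1 := log_ge (w / u) (by positivity)
    have e : w / u / (1 + w / u) = w / (u + w) := by field_simp
    rw [e] at h1
    refine le_trans ?_ (mul_le_mul_of_nonneg_left h1 (by positivity))
    have e2 : w / u * u ^ 2 = w * u := by field_simp
    rw [e2, ← mul_div_assoc, le_div_iff₀ (by positivity)]
    have := mul_le_mul_of_nonneg_left hwu (show 0 ≤ w ^ 2 by positivity)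
    linarith only [this]

/-- The abstract covering theorem. -/
theorem cover' (P : Finset C → Prop) (K : Finset C) (hP1 : ∀ x ∈ K, P {x}) (A L : ℝ)
    (hA : 1 ≤ A) (hAk : A ≤ K.card) (hL : 4 * (K.card : ℝ) ^ 2 ≤ Real.exp L)
    (hB : ∀ F ⊆ K, F.Nonempty → P F → ((blk P K F).card : ℝ) ≤ A * F.card) :
    ∃ c : C → ℕ, (∀ i, (K.filter fun x => c x = i).Nonempty → P (K.filter fun x => c x = i)) ∧
      ∀ x ∈ K, (c x : ℝ) ≤ A + 8 * √(A * L) + 19 * L + 24 * L * Real.log (3 * L) := by
  have hk : (1 : ℝ) ≤ K.card := hA.trans hAk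
  have hK : K.Nonempty := Finset.card_pos.1 (by exact_mod_cast (by linarith : (0 : ℝ) < K.card))
  have hL1 : 1 ≤ L := by
    by_contra hc
    push Not at hc
    have := Real.exp_lt_exp.2 hc
    have := Real.exp_one_lt_d9
    linarith [one_le_pow₀ (n := 2) hk]
  have hlev := fun m : ℕ => level (A * (m + 1) / K.card) L (by positivity) (by linarith)
  choose g a hg ha hga hab using hlev
  set k : ℝ := (K.card : ℝ) with hkdef
  set n0 := L * k / A with hn0
  have hn1 : 1 ≤ n0 := by
    rw [hn0, one_le_div (by linarith only [hA])]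
    linarith only [hAk, mul_le_mul_of_nonneg_right hL1 (zero_le_one.trans hk)]
  set E := 4 * L * (1 + 2 * Real.log (3 * L)) with hE
  have hlog3 : 0 ≤ Real.log (3 * L) := Real.log_nonneg (by linarith only [hL1])
  have hE0 : 0 ≤ E := by positivity
  have hsum : ∑ m ∈ range K.card, a m / (m + 1) ≤ A + 6 * √(A * L) + E := by
    have h1 : ∀ m ∈ range K.card, a m / (m + 1) ≤ A / k + 3 * √(A * L / k) * (1 / √((m : ℝ) + 1)) +
        4 * L * (if (m : ℝ) + 1 < n0 then
          1 / (((m : ℝ) + 1) * (1 + Real.log (n0 / (m + 1)))) else 0) := by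
      clear * - C K a A k L n0 hab hn0 hk hA hL1 hAk hK
      intro m _
      have hm : (0 : ℝ) < m + 1 := by positivity
      refine le_trans (div_le_div_of_nonneg_right (hab m) hm.le) (le_of_eq ?_)
      have e1 : A * (m + 1) / k * L = A * L / k * (m + 1) := by ring
      have e2 : L / (A * (m + 1) / k) = n0 / (m + 1) := by rw [hn0]; field_simp
      have e3 : A * (m + 1) / k < L ↔ (m : ℝ) + 1 < n0 := by
        rw [hn0, div_lt_iff₀ (by linarith only [hA, hAk]), lt_div_iff₀ (by linarith only [hA]), mul_comm A]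
      rw [e1, e2, Real.sqrt_mul (by positivity)]
      simp only [e3]
      have hs : 0 < √((m : ℝ) + 1) := Real.sqrt_pos.2 hm
      have es := Real.sq_sqrt hm.le
      have e4 : √((m : ℝ) + 1) / (m + 1) = 1 / √((m : ℝ) + 1) := by
        rw [div_eq_div_iff hm.ne' hs.ne']; linarith only [es]
      rw [← e4]
      split_ifs with h
      · have := one_le_v n0 _ hm h
        clear * - A m k L n0 hk this hA hL1; field_simp
      · field_simp
        ring
    refine (Finset.sum_le_sum h1).trans ?_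
    rw [Finset.sum_add_distrib, Finset.sum_add_distrib, ← Finset.mul_sum, ← Finset.mul_sum,
      Finset.sum_const, Finset.card_range, nsmul_eq_mul]
    have h2 := mul_le_mul_of_nonneg_left (sum_inv_sqrt K.card)
      (show 0 ≤ 3 * √(A * L / k) by positivity)
    have h3 := mul_le_mul_of_nonneg_left (sum_loglog n0 hn1 K.card) (show 0 ≤ 4 * L by linarith only [hL1])
    have e1 : k * (A / k) = A := by field_simp
    have e2 : √(A * L / k) * √k = √(A * L) := by
      rw [← Real.sqrt_mul (by positivity)]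
      congr 1
      field_simp
    have h4 : Real.log (1 + Real.log n0) ≤ Real.log (3 * L) := by
      clear * - n0 L hn1 k A hn0 hL1 C K hK hA hAk hL hk
      refine Real.log_le_log (by linarith only [hn1, Real.log_nonneg hn1]) ?_
      have h5 : Real.log n0 ≤ Real.log (L * k) := by
        refine Real.log_le_log (by linarith only [hn1]) ?_
        rw [hn0]
        exact div_le_self (by positivity) hA
      rw [Real.log_mul (by linarith only [hL1]) (by linarith only [hA, hAk])] at h5
      have h6 := Real.log_le_sub_one_of_pos (show 0 < L by linarith only [hL1])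
      have h7 : Real.log k ≤ L := by
        rw [Real.log_le_iff_le_exp (by linarith only [hA, hAk])]
        linarith only [hL, hk, sq_nonneg (k - 1), sq_nonneg k]
      linarith only [hL1, h5, h6, h7]
    have h5 := mul_le_mul_of_nonneg_left h4 (show 0 ≤ 8 * L by linarith only [hL1])
    rw [← hkdef] at h2 ⊢
    rw [e1, hE]
    linarith only [h2, h3, h5, e2]
  set Λ := A + 6 * √(A * L) + E with hΛ
  have hs0 := Real.sqrt_nonneg (A * L)
  have hΛ0 : 0 < Λ := by linarith only [hA, hE0, hs0]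
  have hu : 0 < √Λ := Real.sqrt_pos.2 hΛ0
  have hw : 0 < √L := Real.sqrt_pos.2 (by linarith only [hL1])
  obtain ⟨c, h1, h2⟩ := cover P K hK hP1 g a hg ha A L hL hB (fun m _ => hga m) (√L / √Λ)
    (by positivity)
  refine ⟨c, h1, fun x hx => ?_⟩
  have h3 : (c x : ℝ) * Real.log (1 + √L / √Λ) ≤ L + √L / √Λ * Λ := by
    clear * - L Λ c x C K a h2 hx hsum hL1 A E hA hlog3
    have := h2 x hx
    rw [← Real.log_le_iff_le_exp (by positivity), Real.log_pow] at this
    have := mul_le_mul_of_nonneg_left hsum (show 0 ≤ √L / √Λ by positivity)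
    linarith
  have h4 := log_ge (√L / √Λ) (by positivity)
  have h5 : √Λ * √L ≤ √(A * L) + 3 * L + E := by
    clear * - Λ L A E hΛ0 hA hL1 hlog3 hs0 hE0 hΛ
    rw [← Real.sqrt_mul hΛ0.le]
    refine Real.sqrt_le_iff.2 ⟨by positivity, ?_⟩
    have := Real.sq_sqrt (show 0 ≤ A * L by positivity)
    have hLE : 0 ≤ L * E := by positivity
    have := mul_nonneg hs0 hE0
    rw [hΛ]
    nlinarith
  have eu := Real.sq_sqrt hΛ0.le
  have ew := Real.sq_sqrt (show 0 ≤ L by linarith only [hL1])
  have h6 : (c x : ℝ) ≤ Λ + 2 * (√Λ * √L) + L := by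
    clear * - L Λ hu hw c x h4 h3 eu ew
    generalize √Λ = u at *
    generalize √L = w at *
    have e : w / u / (1 + w / u) = w / (u + w) := by field_simp
    rw [e] at h4
    have h7 := (mul_le_mul_of_nonneg_left h4 (Nat.cast_nonneg (α := ℝ) (c x))).trans h3
    rw [← eu, ← ew] at h7 ⊢
    have e2 : w / u * u ^ 2 = w * u := by field_simp
    rw [e2, ← mul_div_assoc, div_le_iff₀ (by positivity)] at h7
    have : (c x : ℝ) * w ≤ (u ^ 2 + 2 * (u * w) + w ^ 2) * w := by
      linarith only [h7, mul_pos (mul_pos hu hu) hw]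
    exact le_of_mul_le_mul_right this hw
  rw [hΛ] at h6
  rw [hE] at h5 h6
  linarith only [h5, h6]

end Pool.Agent.Work.MP_ae9baf_co.FirstFit
end

-- merged part: Pool.Agent.Work.MP_ae9baf_co.NearOpt
section
namespace Pool.Agent.Work.MP_ae9baf_co

open Classical

variable {V C : Type*}

/-- `H` has a proper colouring with the colours `0, …, n - 1`. -/
def Col (G : SimpleGraph V) (H : Finset V) (n : ℕ) : Prop :=
  ∃ f : V → ℕ, (∀ v ∈ H, f v < n) ∧ ∀ u ∈ H, ∀ v ∈ H, G.Adj u v → f u ≠ f v

theorem Col.colorable {G : SimpleGraph V} {H : Finset V} {n : ℕ} (h : Col G H n) :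
    (G.induce (H : Set V)).Colorable n := by
  obtain ⟨f, h1, h2⟩ := h
  exact ⟨SimpleGraph.Coloring.mk (fun v => ⟨f v.1, h1 v.1 v.2⟩)
    fun {u v} huv e => h2 u.1 u.2 v.1 v.2 huv (congrArg Fin.val e)⟩

theorem Col.of_colorable {G : SimpleGraph V} {H : Finset V} {n : ℕ}
    (h : (G.induce (H : Set V)).Colorable n) : Col G H n := by
  obtain ⟨c⟩ := h
  refine ⟨fun v => if h : v ∈ H then (c ⟨v, h⟩).1 else 0, fun v hv => ?_, fun u hu v hv huv => ?_⟩
  · simp only [dif_pos hv]; exact (c ⟨v, hv⟩).2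
  · simp only [dif_pos hu, dif_pos hv]
    exact fun e => c.valid (show (G.induce (H : Set V)).Adj ⟨u, hu⟩ ⟨v, hv⟩ from huv) (Fin.ext e)

theorem Col.union {G : SimpleGraph V} {H H' : Finset V} {n n' : ℕ} (h : Col G H n)
    (h' : Col G H' n') : Col G (H ∪ H') (n + n') := by
  obtain ⟨f, h1, h2⟩ := h
  obtain ⟨f', h1', h2'⟩ := h'
  refine ⟨fun v => if v ∈ H then f v else n + f' v, fun v hv => ?_, fun u hu v hv huv => ?_⟩
  · by_cases c : v ∈ H
    · have := h1 v c
      simp only [if_pos c]; omega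
    · have := h1' v ((Finset.mem_union.1 hv).resolve_left c)
      simp only [if_neg c]; omega
  · by_cases cu : u ∈ H <;> by_cases cv : v ∈ H
    · simpa only [if_pos cu, if_pos cv] using h2 u cu v cv huv
    · have := h1 u cu
      simp only [if_pos cu, if_neg cv]; omega
    · have := h1 v cv
      simp only [if_neg cu, if_pos cv]; omega
    · have := h2' u ((Finset.mem_union.1 hu).resolve_left cu) v
        ((Finset.mem_union.1 hv).resolve_left cv) huv
      simp only [if_neg cu, if_neg cv]; omega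

/-- Any set of colours is covered by a subgraph with at most `(|K'| + s) / 2` colours. -/
theorem pair_cover {G : SimpleGraph V} {s : ℕ}
    (hloc : ∀ v, (G.induce (insert v (G.neighborSet v))).Colorable s) (σ : V → C) (n : ℕ) :
    ∀ K' : Finset C, K'.card = n → (∀ x ∈ K', ∃ v, σ v = x) →
      ∃ (H : Finset V) (J : ℕ), K' ⊆ H.image σ ∧ Col G H J ∧ 2 * J ≤ K'.card + s := by
  induction n using Nat.strong_induction_on with
  | _ n ih =>
  intro K' hn hK
  by_cases hc : ∃ u v, σ u ∈ K' ∧ σ v ∈ K' ∧ σ u ≠ σ v ∧ ¬ G.Adj u v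
  · obtain ⟨u, v, hu, hv, hne, hadj⟩ := hc
    have hv' : σ v ∈ K'.erase (σ u) := Finset.mem_erase.2 ⟨hne.symm, hv⟩
    have h1 := Finset.card_erase_add_one hu
    have h2 := Finset.card_erase_add_one hv'
    obtain ⟨H, J, h3, h4, h5⟩ := ih _ (by omega) ((K'.erase (σ u)).erase (σ v)) rfl
      (fun x hx => hK x (Finset.mem_of_mem_erase (Finset.mem_of_mem_erase hx)))
    have h6 : Col G {u, v} 1 := by
      refine ⟨fun _ => 0, fun _ _ => one_pos, fun a ha b hb hab _ => ?_⟩
      simp only [Finset.mem_insert, Finset.mem_singleton] at ha hb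
      rcases ha with rfl | rfl <;> rcases hb with rfl | rfl
      · exact G.irrefl hab
      · exact hadj hab
      · exact hadj hab.symm
      · exact G.irrefl hab
    refine ⟨H ∪ {u, v}, J + 1, fun x hx => ?_, h4.union h6, by omega⟩
    by_cases c1 : x = σ u
    · exact Finset.mem_image.2 ⟨u, by simp, c1.symm⟩
    by_cases c2 : x = σ v
    · exact Finset.mem_image.2 ⟨v, by simp, c2.symm⟩
    exact Finset.image_subset_image Finset.subset_union_left
      (h3 (Finset.mem_erase.2 ⟨c2, Finset.mem_erase.2 ⟨c1, hx⟩⟩))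
  push Not at hc
  rcases K'.eq_empty_or_nonempty with rfl | ⟨x0, hx0⟩
  · exact ⟨∅, 0, by simp, ⟨fun _ => 0, by simp, by simp⟩, by simp⟩
  obtain ⟨v0, hv0⟩ := hK x0 hx0
  have hK2 : ∀ x, ∃ v, x ∈ K' → σ v = x := fun x => by
    by_cases hx : x ∈ K'
    · obtain ⟨v, hv⟩ := hK x hx
      exact ⟨v, fun _ => hv⟩
    · exact ⟨v0, fun h => (hx h).elim⟩
  choose r hr using hK2
  have hadj : ∀ x ∈ K', ∀ y ∈ K', x ≠ y → G.Adj (r x) (r y) := fun x hx y hy hne =>
    hc _ _ (by rw [hr x hx]; exact hx) (by rw [hr y hy]; exact hy) (by rw [hr x hx, hr y hy]; exact hne)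
  have hcard : K'.card ≤ s := by
    obtain ⟨c⟩ := hloc (r x0)
    have hm : ∀ x : K', r x.1 ∈ insert (r x0) (G.neighborSet (r x0)) := fun x => by
      by_cases e : x0 = x.1
      · exact Or.inl (by rw [e])
      · exact Or.inr (hadj x0 hx0 x.1 x.2 e)
    have := Fintype.card_le_of_injective (fun x : K' => c ⟨r x.1, hm x⟩) fun x y e => by
      by_contra hne
      exact c.valid (show (G.induce _).Adj ⟨r x.1, hm x⟩ ⟨r y.1, hm y⟩ from
        hadj x.1 x.2 y.1 y.2 fun h => hne (Subtype.ext h)) e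
    simpa using this
  refine ⟨K'.image r, K'.card, fun x hx => Finset.mem_image.2
    ⟨r x, Finset.mem_image_of_mem r hx, hr x hx⟩, Col.of_colorable ?_, by omega⟩
  refine colorable_of_mem (fun v => σ v.1) K' (fun v => ?_) fun u v huv e => ?_
  · obtain ⟨x, hx, h⟩ := Finset.mem_image.1 v.2
    show σ v.1 ∈ K'
    rw [← h, hr x hx]; exact hx
  · obtain ⟨x, hx, h⟩ := Finset.mem_image.1 u.2
    obtain ⟨y, hy, h'⟩ := Finset.mem_image.1 v.2
    have e' : σ u.1 = σ v.1 := e
    rw [← h, ← h', hr x hx, hr y hy] at e'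
    have huv' : G.Adj u.1 v.1 := huv
    rw [← h, ← h', e'] at huv'
    exact G.irrefl huv'

/-- Colourings with many colours: the conjectured bound holds. -/
theorem many_colours [Fintype V] {G : SimpleGraph V} {s : ℕ} (hs : 2 ≤ s)
    (hloc : ∀ v, (G.induce (insert v (G.neighborSet v))).Colorable s)
    (σ : V → C) (hσ : ∀ x y, G.Adj x y → σ x ≠ σ y)
    (ht : G.chromaticNumber.toNat + 3 * (s - 1) ≤ (Finset.univ.image σ).card) :
    ∃ (H : Finset V) (J : ℕ), Finset.univ.image σ ⊆ H.image σ ∧ Col G H J ∧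
      G.chromaticNumber.toNat + J ≤ (Finset.univ.image σ).card + s := by
  obtain ⟨H0, h1, h2⟩ := exists_rainbow hs hloc σ hσ
  obtain ⟨H, J, h3, h4, h5⟩ := pair_cover hloc σ _ (Finset.univ.image σ \ H0.image σ) rfl
    (fun x hx => by
      obtain ⟨v, -, hv⟩ := Finset.mem_image.1 (Finset.mem_sdiff.1 hx).1
      exact ⟨v, hv⟩)
  refine ⟨H0 ∪ H, _, fun x hx => ?_, (Col.of_colorable h1).union h4, ?_⟩
  · by_cases c : x ∈ H0.image σ
    · exact Finset.image_subset_image Finset.subset_union_left c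
    · exact Finset.image_subset_image Finset.subset_union_right (h3 (Finset.mem_sdiff.2 ⟨hx, c⟩))
  · have h6 := toNat_le h2
    have h7 := Finset.card_sdiff_add_card_eq_card
      (Finset.image_subset_image (f := σ) (Finset.subset_univ H0))
    omega

/-- First-fit in a random order of the colour classes. -/
theorem first_fit [Fintype V] {G : SimpleGraph V} {s : ℕ} (hs : 2 ≤ s)
    (hloc : ∀ v, (G.induce (insert v (G.neighborSet v))).Colorable s)
    (σ : V → C) (hσ : ∀ x y, G.Adj x y → σ x ≠ σ y) (t : ℕ)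
    (ht : (Finset.univ.image σ).card = G.chromaticNumber.toNat + t)
    (hχ : s - 1 ≤ G.chromaticNumber.toNat) (L : ℝ)
    (hL : 4 * ((Finset.univ.image σ).card : ℝ) ^ 2 ≤ Real.exp L) :
    ∃ (H : Finset V) (J : ℕ), Finset.univ.image σ ⊆ H.image σ ∧ Col G H J ∧
      (J : ℝ) ≤ (s - 1 + t : ℕ) + 8 * √((s - 1 + t : ℕ) * L) + 19 * L +
        24 * L * Real.log (3 * L) + 1 := by
  set K := Finset.univ.image σ with hK
  have hKm : ∀ x, σ x ∈ K := fun x => Finset.mem_image_of_mem σ (Finset.mem_univ x)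
  let P : Finset C → Prop := fun F => ∃ I : Finset V, F ⊆ I.image σ ∧ I.card ≤ F.card ∧
    ∀ u ∈ I, ∀ v ∈ I, ¬ G.Adj u v
  obtain ⟨c, h1, h2⟩ := FirstFit.cover' P K (fun x hx => by
      obtain ⟨v, -, rfl⟩ := Finset.mem_image.1 hx
      exact ⟨{v}, by simp, by simp, by simp⟩) ((s - 1 + t : ℕ) : ℝ) L
    (by exact_mod_cast (by omega : 1 ≤ s - 1 + t)) (by exact_mod_cast (by omega)) hL
    (fun F hF hne ⟨I, hI1, hI2, hI3⟩ => by
      have hcol := toNat_le (colorable_of_dominated hloc σ hσ K hKm (FirstFit.blk P K F) I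
        (fun x hx => by
          by_contra hcon
          push Not at hcon
          obtain ⟨hx1, hx2⟩ := FirstFit.mem_blk hx
          refine hx2 ⟨insert x I, ?_, ?_, ?_⟩
          · rw [Finset.image_insert]
            convert Finset.insert_subset_insert (σ x) hI1
          · have := Finset.card_insert_le x I
            have := Finset.card_insert_of_notMem (Finset.mem_sdiff.1 hx1).2
            convert (show (insert x I).card ≤ (insert (σ x) F).card by omega)
          · intro u hu v hv huv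
            rcases Finset.mem_insert.1 hu with rfl | hu' <;>
              rcases Finset.mem_insert.1 hv with rfl | hv'
            · exact G.irrefl huv
            · exact hcon v hv' huv
            · exact hcon u hu' huv.symm
            · exact hI3 u hu' v hv' huv))
      have hsub : FirstFit.blk P K F ⊆ K := fun x hx =>
        (Finset.mem_sdiff.1 (FirstFit.mem_blk hx).1).1
      have h3 := Finset.card_sdiff_add_card_eq_card hsub
      have h4 := Nat.mul_le_mul_right (s - 1) hI2
      have h5 : t ≤ t * F.card := Nat.le_mul_of_pos_right t hne.card_pos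
      have h6 : (FirstFit.blk P K F).card ≤ (s - 1 + t) * F.card := by
        rw [add_mul, mul_comm (s - 1)]
        omega
      exact_mod_cast h6)
  have hI : ∀ i, ∃ I : Finset V, (K.filter fun x => c x = i) ⊆ I.image σ ∧
      ∀ u ∈ I, ∀ v ∈ I, ¬ G.Adj u v := fun i => by
    rcases (K.filter fun x => c x = i).eq_empty_or_nonempty with h | h
    · exact ⟨∅, by rw [h]; simp, by simp⟩
    · obtain ⟨I, h3, -, h4⟩ := h1 i h
      exact ⟨I, h3, h4⟩
  choose I hI1 hI2 using hI
  have hKne : K.Nonempty := Finset.card_pos.1 (by omega)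
  obtain ⟨x0, hx0, hmax⟩ := Finset.exists_max_image K c hKne
  refine ⟨(Finset.range (c x0 + 1)).biUnion I, c x0 + 1, fun x hx => ?_, ?_, ?_⟩
  · obtain ⟨v, hv, e⟩ := Finset.mem_image.1 (hI1 (c x) (Finset.mem_filter.2 ⟨hx, rfl⟩))
    exact Finset.mem_image.2 ⟨v, Finset.mem_biUnion.2 ⟨c x,
      Finset.mem_range.2 (Nat.lt_succ_of_le (hmax x hx)), hv⟩, e⟩
  · have : ∀ v, ∃ i, v ∈ (Finset.range (c x0 + 1)).biUnion I → i < c x0 + 1 ∧ v ∈ I i := by
      intro v
      by_cases hv : v ∈ (Finset.range (c x0 + 1)).biUnion I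
      · obtain ⟨i, hi, h⟩ := Finset.mem_biUnion.1 hv
        exact ⟨i, fun _ => ⟨Finset.mem_range.1 hi, h⟩⟩
      · exact ⟨0, fun h => (hv h).elim⟩
    choose f hf using this
    exact ⟨f, fun v hv => (hf v hv).1, fun u hu v hv huv e =>
      hI2 (f u) u (hf u hu).2 v (e ▸ (hf v hv).2) huv⟩
  · push_cast
    have := h2 x0 hx0
    push_cast at this
    linarith only [this]

theorem err_nonneg (s n : ℕ) (hs : 2 ≤ s) :
    0 ≤ √(s * Real.log n) + Real.log n * Real.log (Real.log n) := by
  rcases Nat.lt_or_ge n 2 with h | h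
  · interval_cases n <;> simp
  have h2 : Real.log 2 ≤ Real.log n := Real.log_le_log two_pos (by exact_mod_cast h)
  have h3 := Real.log_two_gt_d9
  have hs' : (2 : ℝ) ≤ s := by exact_mod_cast hs
  generalize Real.log n = l at h2 ⊢
  have hl : 0 < l := by linarith only [h3, h2]
  have h4 := mul_le_mul_of_nonneg_left (Real.one_sub_inv_le_log_of_pos hl) hl.le
  rw [mul_sub, mul_inv_cancel₀ hl.ne'] at h4
  have h5 : 1 ≤ √(s * l) := Real.one_le_sqrt.2 (by linarith only [hs', h3, h2, mul_nonneg_of_nonpos_of_nonpos (Mathlib.Tactic.Linarith.sub_nonpos_of_le (Mathlib.Tactic.Linarith.natCast_nonneg ℝ s)) (le_of_lt (Mathlib.Tactic.Linarith.sub_neg_of_lt h3)), mul_nonneg_of_nonpos_of_nonpos (Mathlib.Tactic.Linarith.sub_nonpos_of_le (Mathlib.Tactic.Linarith.natCast_nonneg ℝ s)) (Mathlib.Tactic.Linarith.sub_nonpos_of_le h2)])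
  linarith only [hl, h4, h5]

theorem err_bound (s n t k : ℕ) (hs : 2 ≤ s) (hn : 2 * s + 2 ≤ n) (hk : k = n + t)
    (ht : t < 3 * (s - 1)) :
    ∃ L : ℝ, 4 * (k : ℝ) ^ 2 ≤ Real.exp L ∧
      8 * √((s - 1 + t : ℕ) * L) + 19 * L + 24 * L * Real.log (3 * L) ≤
        728 * (√(s * Real.log n) + Real.log n * Real.log (Real.log n)) := by
  have hn6 : (6 : ℝ) ≤ n := by exact_mod_cast (by omega : 6 ≤ n)
  have hk' : 2 * (k : ℝ) ≤ 5 * n := by exact_mod_cast (by omega : 2 * k ≤ 5 * n)
  have hA : ((s - 1 + t : ℕ) : ℝ) ≤ 4 * s := by exact_mod_cast (by omega : s - 1 + t ≤ 4 * s)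
  refine ⟨4 * Real.log n, ?_, ?_⟩
  · have : Real.exp (4 * Real.log n) = (n : ℝ) ^ 4 := by
      rw [show (4 : ℝ) = (4 : ℕ) by norm_num, Real.exp_nat_mul, Real.exp_log (by linarith only [hn6])]
    rw [this]
    have h0 : (0 : ℝ) ≤ k := Nat.cast_nonneg k
    have h1 : 4 * (k : ℝ) ^ 2 ≤ 25 * (n : ℝ) ^ 2 := by linarith only [hk', mul_nonneg_of_nonpos_of_nonpos (Mathlib.Tactic.Linarith.sub_nonpos_of_le (Mathlib.Tactic.Linarith.natCast_nonneg ℝ n)) (Mathlib.Tactic.Linarith.sub_nonpos_of_le hk'), mul_nonneg_of_nonpos_of_nonpos (Mathlib.Tactic.Linarith.sub_nonpos_of_le (Mathlib.Tactic.Linarith.natCast_nonneg ℝ k)) (Mathlib.Tactic.Linarith.sub_nonpos_of_le hk')]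
    have h2 : (25 : ℝ) ≤ (n : ℝ) ^ 2 := by linarith only [hn6, mul_nonneg_of_nonpos_of_nonpos (Mathlib.Tactic.Linarith.sub_nonpos_of_le (Mathlib.Tactic.Linarith.natCast_nonneg ℝ n)) (Mathlib.Tactic.Linarith.sub_nonpos_of_le hn6)]
    linarith only [h1, h2, sq_nonneg (n : ℝ), mul_nonneg_of_nonpos_of_nonpos (Mathlib.Tactic.Linarith.sub_nonpos_of_le (sq_nonneg ↑n)) (Mathlib.Tactic.Linarith.sub_nonpos_of_le h2)]
  have h2 := Real.log_two_gt_d9
  have h2' := Real.log_two_lt_d9
  have hl : 1.7 ≤ Real.log n := by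
    have h3 : Real.log ((2 : ℝ) ^ 5) ≤ Real.log ((n : ℝ) ^ 2) :=
      Real.log_le_log (by positivity) (by linarith only [hn6, h2, h2', mul_nonneg_of_nonpos_of_nonpos (Mathlib.Tactic.Linarith.sub_nonpos_of_le (Mathlib.Tactic.Linarith.natCast_nonneg ℝ n)) (Mathlib.Tactic.Linarith.sub_nonpos_of_le hn6)])
    rw [Real.log_pow, Real.log_pow] at h3
    push_cast at h3
    linarith only [h2, h2', h3]
  generalize Real.log n = l at hl ⊢
  have hll : 1 / 2 ≤ Real.log l := by
    have h3 : Real.log (Real.exp 1) ≤ Real.log (l ^ 2) :=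
      Real.log_le_log (Real.exp_pos _) (by have := Real.exp_one_lt_d9; linarith only [hl, h2, h2', this, mul_pos_of_neg_of_neg (Mathlib.Tactic.Linarith.sub_neg_of_lt h2) (Mathlib.Tactic.Linarith.sub_neg_of_lt h2), mul_pos_of_neg_of_neg (Mathlib.Tactic.Linarith.sub_neg_of_lt h2) (Mathlib.Tactic.Linarith.sub_neg_of_lt h2'), mul_pos_of_neg_of_neg (Mathlib.Tactic.Linarith.sub_neg_of_lt h2) (Mathlib.Tactic.Linarith.sub_neg_of_lt this), mul_pos_of_neg_of_neg (Mathlib.Tactic.Linarith.sub_neg_of_lt h2') (Mathlib.Tactic.Linarith.sub_neg_of_lt h2'), mul_pos_of_neg_of_neg (Mathlib.Tactic.Linarith.sub_neg_of_lt h2') (Mathlib.Tactic.Linarith.sub_neg_of_lt this), mul_nonneg_of_nonpos_of_nonpos (Mathlib.Tactic.Linarith.sub_nonpos_of_le hl) (Mathlib.Tactic.Linarith.sub_nonpos_of_le hl)])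
    rw [Real.log_exp, Real.log_pow] at h3
    push_cast at h3
    linarith only [h3]
  have h12 : Real.log (3 * (4 * l)) ≤ 5 / 2 + Real.log l := by
    rw [← mul_assoc, Real.log_mul (by norm_num) (by linarith only [h2, h2', hl])]
    have h3 : Real.log ((3 * 4 : ℝ) ^ 5) ≤ Real.log ((2 : ℝ) ^ 18) :=
      Real.log_le_log (by positivity) (by norm_num)
    rw [Real.log_pow, Real.log_pow] at h3
    push_cast at h3
    generalize Real.log (3 * 4) = w at h3 ⊢
    norm_num at h2'
    linarith only [h2, h3, h2']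
  have h3 : √((s - 1 + t : ℕ) * (4 * l)) ≤ 4 * √(s * l) := by
    have hs0 : (0 : ℝ) ≤ s := Nat.cast_nonneg s
    refine Real.sqrt_le_iff.2 ⟨by positivity, ?_⟩
    rw [mul_pow, Real.sq_sqrt (by positivity)]
    linarith only [hA, hl, mul_nonneg_of_nonpos_of_nonpos (Mathlib.Tactic.Linarith.sub_nonpos_of_le hA) (Mathlib.Tactic.Linarith.sub_nonpos_of_le hl)]
  have h4 := Real.sqrt_nonneg (s * l)
  have h5 := mul_le_mul_of_nonneg_left h12 (show 0 ≤ 96 * l by linarith only [h2, h2', hl])
  have h6 := mul_le_mul_of_nonneg_left hll (show 0 ≤ l by linarith only [h2, h2', hl])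
  linarith only [h3, h4, h5, h6]

theorem near_opt [Fintype V] [Nonempty V] {G : SimpleGraph V} {s : ℕ} (hs : 2 ≤ s)
    (hloc : ∀ v, (G.induce (insert v (G.neighborSet v))).Colorable s)
    (σ : V → C) (hσ : ∀ x y, G.Adj x y → σ x ≠ σ y) :
    ∃ H : Set V, H.Nonempty ∧ (G.chromaticNumber.toNat : ℝ) - s -
        728 * (√(s * Real.log G.chromaticNumber.toNat) +
          Real.log G.chromaticNumber.toNat * Real.log (Real.log G.chromaticNumber.toNat)) ≤
      ((σ '' H).ncard : ℝ) - ((G.induce H).chromaticNumber.toNat : ℝ) := by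
  have h0 := err_nonneg s G.chromaticNumber.toNat hs
  by_cases hχ : G.chromaticNumber.toNat ≤ 2 * s + 1
  · obtain ⟨H, h1, h2⟩ := range_main hs hloc hχ σ hσ
    refine ⟨H, h1, ?_⟩
    have : (G.chromaticNumber.toNat : ℝ) - s ≤
      ((σ '' H).ncard : ℝ) - ((G.induce H).chromaticNumber.toNat : ℝ) := by exact_mod_cast h2
    linarith only [h0, this]
  have hk := toNat_le (colorable_of_mem σ (Finset.univ.image σ)
    (fun x => Finset.mem_image_of_mem σ (Finset.mem_univ x)) hσ)
  suffices h : ∃ (H : Finset V) (J : ℕ), Finset.univ.image σ ⊆ H.image σ ∧ Col G H J ∧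
      (G.chromaticNumber.toNat : ℝ) + J ≤ (Finset.univ.image σ).card + s +
        728 * (√(s * Real.log G.chromaticNumber.toNat) +
          Real.log G.chromaticNumber.toNat * Real.log (Real.log G.chromaticNumber.toNat)) by
    obtain ⟨H, J, h1, h2, h3⟩ := h
    have h4 := Finset.card_le_card h1
    refine ⟨H, Finset.coe_nonempty.2 (Finset.image_nonempty.1
      (Finset.card_pos.1 (show 0 < (H.image σ).card by omega))), ?_⟩
    have h5 : (((G.induce (H : Set V)).chromaticNumber.toNat : ℕ) : ℝ) ≤ J := by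
      exact_mod_cast toNat_le h2.colorable
    have h6 : ((Finset.univ.image σ).card : ℝ) ≤ (H.image σ).card := by exact_mod_cast h4
    rw [ncard_image]
    linarith only [h3, h5, h6]
  by_cases ht : G.chromaticNumber.toNat + 3 * (s - 1) ≤ (Finset.univ.image σ).card
  · obtain ⟨H, J, h1, h2, h3⟩ := many_colours hs hloc σ hσ ht
    refine ⟨H, J, h1, h2, ?_⟩
    have : (G.chromaticNumber.toNat : ℝ) + J ≤ (Finset.univ.image σ).card + s := by
      exact_mod_cast h3
    linarith only [h0, this]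
  obtain ⟨t, htk⟩ := Nat.exists_eq_add_of_le hk
  obtain ⟨L, hL1, hL2⟩ := err_bound s G.chromaticNumber.toNat t _ hs (by omega) htk (by omega)
  obtain ⟨H, J, h1, h2, h3⟩ := first_fit hs hloc σ hσ t htk (by omega) L hL1
  refine ⟨H, J, h1, h2, ?_⟩
  have e : ((s - 1 + t : ℕ) : ℝ) = s - 1 + t := by
    rw [Nat.cast_add, Nat.cast_sub (by omega), Nat.cast_one]
  have e2 : ((Finset.univ.image σ).card : ℝ) = G.chromaticNumber.toNat + t := by
    exact_mod_cast htk
  linarith only [hL2, h3, e, e2]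

end Pool.Agent.Work.MP_ae9baf_co
end
end
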